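import Mathlib
import Pool.Agent.Lib.MP_9ec2c5_gen.Defs

/-!
Polynomial self-maps of affine space whose iterates have finitely many points of indeterminacy at
infinity, the number of which is unbounded: definitions.
-/

set_option autoImplicit false

namespace Pool.Agent.Lib.MP_9ec2c5_bp

open MvPolynomial
open Pool.Agent.Lib.MP_9ec2c5_gen (iter)

section general

variable {K : Type} [Field K] {N : ℕ}

/-- The homogeneous parts of degree `d` of the polynomials `F i`. -/
noncomputable def lead (d : ℕ) (F : Fin N → MvPolynomial (Fin N) K) (i : Fin N) :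
    MvPolynomial (Fin N) K := homogeneousComponent d (F i)

/-- The points of the hyperplane at infinity (over the algebraic closure) at which all the
coordinates of the `n`-th iterate of the homogeneous polynomial map `lead d F` vanish. -/
def BadPoints (d : ℕ) (F : Fin N → MvPolynomial (Fin N) K) (n : ℕ) :
    Set (Projectivization (AlgebraicClosure K) (Fin N → AlgebraicClosure K)) :=
  {p | ∀ i, aeval p.rep (iter (lead d F) n i) = 0}

/-- homogenisation in degree `e`, the new variable has index zero -/
noncomputable def hz (e : ℕ) (p : MvPolynomial (Fin N) K) : MvPolynomial (Fin (N + 1)) K :=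
  ∑ s ∈ p.support, monomial (Finsupp.cons (e - s.degree) s) (coeff s p)

/-- the homogenisation in degree `d` of a polynomial map -/
noncomputable def hmap (d : ℕ) (F : Fin N → MvPolynomial (Fin N) K) :
    Fin (N + 1) → MvPolynomial (Fin (N + 1)) K :=
  Fin.cons (X 0 ^ d) fun i => hz d (F i)

/-- the forms of degree `m` in the `k`-th power of the ideal generated by the `h j` -/
noncomputable def PowPart {τ : Type} (h : τ → MvPolynomial (Fin (N + 1)) K) (k m : ℕ) :
    Submodule K (MvPolynomial (Fin (N + 1)) K) :=
  (Ideal.span (Set.range h) ^ k).restrictScalars K ⊓ homogeneousSubmodule (Fin (N + 1)) K m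

/-- the largest absolute value of a coordinate -/
noncomputable def nrm {ι : Type} (v : AbsoluteValue K ℝ) (x : ι → K) : ℝ := ⨆ i, v (x i)

end general

section points

variable (K : Type) [Field K] {Ω : Type} [Field Ω] [Algebra K Ω]

/-- the set is contained in finitely many lines through the origin -/
def FinLines {σ : Type} (Z : Set (σ → Ω)) : Prop :=
  ∃ S : Set (σ → Ω), S.Finite ∧ ∀ x ∈ Z, ∃ s ∈ S, ∃ c : Ω, x = c • s

/-- every form with coefficients in `K` which vanishes at `q` vanishes at `p` -/
def Below {σ : Type} (q p : σ → Ω) : Prop :=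
  ∀ (e : ℕ) (f : MvPolynomial σ K), f.IsHomogeneous e → aeval q f = 0 → aeval p f = 0

variable {K}

/-- the common zeros of the polynomials `h j` -/
def Zer (Ω : Type) [Field Ω] [Algebra K Ω] {σ τ : Type} (h : τ → MvPolynomial σ K) :
    Set (σ → Ω) := {x | ∀ j, aeval x (h j) = 0}

/-- the polynomial `h` vanishes at the point `q` to order at least `M` -/
def OrdAt {N : ℕ} (q : Fin (N + 1) → Ω) (M : ℕ) (h : MvPolynomial (Fin (N + 1)) K) : Prop :=
  aeval (fun i => (C (q i) + X i : MvPolynomial (Fin (N + 1)) Ω)) h ∈
    idealOfVars (Fin (N + 1)) Ω ^ M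

end points

end Pool.Agent.Lib.MP_9ec2c5_bp
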