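import Mathlib
import Pool.Agent.Lib.MP_9ec2c5_bp.Defs

/-!
Homogenisation of polynomials and of polynomial maps.
-/

set_option autoImplicit false

namespace Pool.Agent.Lib.MP_9ec2c5_bp

open MvPolynomial
open Pool.Agent.Lib.MP_9ec2c5_gen (iter)

section hz

variable {K : Type} [Field K] {N : ℕ}

theorem hz_hom (e : ℕ) (p : MvPolynomial (Fin N) K) (hp : p.totalDegree ≤ e) :
    (hz e p).IsHomogeneous e := by
  unfold hz
  refine IsHomogeneous.sum _ _ _ fun s hs => isHomogeneous_monomial _ ?_
  have h1 : s.degree ≤ e := (le_totalDegree hs).trans hp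
  rw [Finsupp.degree_eq_sum, Fin.sum_univ_succ, Finsupp.cons_zero]
  simp only [Finsupp.cons_succ]
  rw [← Finsupp.degree_eq_sum]
  omega

theorem hz_eval (e : ℕ) (p : MvPolynomial (Fin N) K) (P : Fin N → K) :
    eval (Fin.cons 1 P : Fin (N + 1) → K) (hz e p) = eval P p := by
  unfold hz
  conv_rhs => rw [p.as_sum]
  rw [map_sum, map_sum]
  refine Finset.sum_congr rfl fun s _ => ?_
  rw [eval_monomial, eval_monomial, Finsupp.prod_fintype _ _ (fun _ => pow_zero _),
    Finsupp.prod_fintype _ _ (fun _ => pow_zero _), Fin.prod_univ_succ]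
  simp only [Fin.cons_zero, Fin.cons_succ, one_pow, one_mul, Finsupp.cons_succ]

theorem hmap_hom (d : ℕ) (F : Fin N → MvPolynomial (Fin N) K)
    (hF : ∀ i, (F i).totalDegree ≤ d) (i : Fin (N + 1)) : (hmap d F i).IsHomogeneous d := by
  unfold hmap
  refine Fin.cases ?_ (fun i => ?_) i
  · rw [Fin.cons_zero]
    have := (isHomogeneous_X K (0 : Fin (N + 1))).pow d
    rwa [one_mul] at this
  · rw [Fin.cons_succ]
    exact hz_hom d _ (hF i)

theorem iter_hom {M : ℕ} (H : Fin M → MvPolynomial (Fin M) K) (d : ℕ)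
    (hH : ∀ i, (H i).IsHomogeneous d) (n : ℕ) (i : Fin M) :
    (iter H n i).IsHomogeneous (d ^ n) := by
  induction n generalizing i with
  | zero => simpa [iter] using isHomogeneous_X K i
  | succ n ih =>
    have := (hH i).aeval (iter H n) ih
    rwa [← pow_succ] at this

theorem iter_add {M : ℕ} (H : Fin M → MvPolynomial (Fin M) K) (a b : ℕ) (i : Fin M) :
    iter H (a + b) i = bind₁ (iter H b) (iter H a i) := by
  induction a generalizing i with
  | zero => simp [iter]
  | succ a ih =>
    have h : iter H (a + b) = fun j => bind₁ (iter H b) (iter H a j) := funext ih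
    have e : a + 1 + b = (a + b) + 1 := by omega
    rw [e]
    change bind₁ (iter H (a + b)) (H i) = bind₁ (iter H b) (bind₁ (iter H a) (H i))
    rw [bind₁_bind₁, h]

/-- the homogenised iterates along an orbit -/
theorem hmap_orbit (d : ℕ) (F : Fin N → MvPolynomial (Fin N) K) (P : ℕ → Fin N → K)
    (hP : ∀ n i, P (n + 1) i = eval (P n) (F i)) (s n : ℕ) (i : Fin (N + 1)) :
    eval (Fin.cons 1 (P s) : Fin (N + 1) → K) (iter (hmap d F) n i) =
      (Fin.cons 1 (P (s + n)) : Fin (N + 1) → K) i := by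
  induction n generalizing i with
  | zero => simp [iter]
  | succ n ih =>
    have h : (fun j => eval (Fin.cons 1 (P s) : Fin (N + 1) → K) (iter (hmap d F) n j)) =
        (Fin.cons 1 (P (s + n)) : Fin (N + 1) → K) := funext ih
    have e : eval (Fin.cons 1 (P s) : Fin (N + 1) → K) (bind₁ (iter (hmap d F) n) (hmap d F i))
        = eval (fun j => eval (Fin.cons 1 (P s) : Fin (N + 1) → K) (iter (hmap d F) n j))
          (hmap d F i) := by
      have := aeval_bind₁ (R := K) (Fin.cons 1 (P s) : Fin (N + 1) → K) (iter (hmap d F) n)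
        (hmap d F i)
      simpa only [coe_aeval_eq_eval, RingHom.coe_coe, aeval_eq_eval] using this
    change eval (Fin.cons 1 (P s) : Fin (N + 1) → K) (bind₁ (iter (hmap d F) n) (hmap d F i)) = _
    rw [e, h, ← add_assoc]
    refine Fin.cases ?_ (fun i => ?_) i
    · simp [hmap]
    · simp only [hmap, Fin.cons_succ]
      rw [hz_eval, hP]

end hz

section points

variable {K : Type} [Field K] {Ω : Type} [Field Ω] [Algebra K Ω] {N : ℕ}

theorem aeval_iter_add {M : ℕ} (H : Fin M → MvPolynomial (Fin M) K) (a b : ℕ) (i : Fin M)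
    (x : Fin M → Ω) :
    aeval x (iter H (a + b) i) = aeval (fun j => aeval x (iter H b j)) (iter H a i) := by
  rw [iter_add, aeval_bind₁]

/-- scaling of forms -/
theorem aeval_smul_hom {σ : Type} (f : MvPolynomial σ K) (e : ℕ) (hf : f.IsHomogeneous e) (c : Ω)
    (x : σ → Ω) : aeval (c • x) f = c ^ e * aeval x f := by
  rw [aeval_def, aeval_def, eval₂_eq, eval₂_eq, Finset.mul_sum]
  refine Finset.sum_congr rfl fun s hs => ?_
  have hdeg : s.degree = e := by
    have := hf (mem_support_iff.1 hs)
    rwa [Finsupp.degree_eq_weight_one] 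
  have h1 : ∏ i ∈ s.support, (c • x) i ^ s i = c ^ e * ∏ i ∈ s.support, x i ^ s i := by
    simp only [Pi.smul_apply, smul_eq_mul, mul_pow]
    rw [Finset.prod_mul_distrib, Finset.prod_pow_eq_pow_sum, ← hdeg]
    rfl
  rw [h1]
  ring

theorem hz_lead (e : ℕ) (p : MvPolynomial (Fin N) K) (hp : p.totalDegree ≤ e) (v : Fin N → Ω) :
    aeval (Fin.cons 0 v : Fin (N + 1) → Ω) (hz e p) = aeval v (homogeneousComponent e p) := by
  unfold hz
  rw [homogeneousComponent_apply, map_sum, map_sum, Finset.sum_filter]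
  refine Finset.sum_congr rfl fun s hs => ?_
  have h1 : s.degree ≤ e := (le_totalDegree hs).trans hp
  rw [aeval_monomial, aeval_monomial, Finsupp.prod_fintype _ _ (fun _ => pow_zero _),
    Finsupp.prod_fintype _ _ (fun _ => pow_zero _), Fin.prod_univ_succ]
  simp only [Fin.cons_zero, Fin.cons_succ, Finsupp.cons_succ, Finsupp.cons_zero]
  split_ifs with h
  · rw [h, Nat.sub_self, pow_zero, one_mul]
  · rw [zero_pow (by omega), zero_mul, mul_zero]

theorem hmap_zero_coord (d : ℕ) (F : Fin N → MvPolynomial (Fin N) K) (n : ℕ)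
    (x : Fin (N + 1) → Ω) : aeval x (iter (hmap d F) n 0) = x 0 ^ d ^ n := by
  induction n with
  | zero => simp [iter]
  | succ n ih =>
    change aeval x (bind₁ (iter (hmap d F) n) (hmap d F 0)) = _
    rw [aeval_bind₁]
    simp only [hmap, Fin.cons_zero, map_pow, aeval_X]
    have := ih
    simp only [hmap] at this
    rw [this, ← pow_mul, ← pow_succ]

theorem hmap_infty (d : ℕ) (hd : 1 ≤ d) (F : Fin N → MvPolynomial (Fin N) K)
    (hF : ∀ i, (F i).totalDegree ≤ d) (n : ℕ) (v : Fin N → Ω) (i : Fin N) :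
    aeval (Fin.cons 0 v : Fin (N + 1) → Ω) (iter (hmap d F) n i.succ) =
      aeval v (iter (lead d F) n i) := by
  induction n generalizing i with
  | zero => simp [iter]
  | succ n ih =>
    change aeval (Fin.cons 0 v : Fin (N + 1) → Ω) (bind₁ (iter (hmap d F) n) (hmap d F i.succ)) =
      aeval v (bind₁ (iter (lead d F) n) (lead d F i))
    rw [aeval_bind₁, aeval_bind₁]
    have h : (fun j => aeval (Fin.cons 0 v : Fin (N + 1) → Ω) (iter (hmap d F) n j)) =
        (Fin.cons 0 (fun j => aeval v (iter (lead d F) n j)) : Fin (N + 1) → Ω) := by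
      funext j
      refine Fin.cases ?_ (fun j => ?_) j
      · rw [hmap_zero_coord, Fin.cons_zero, Fin.cons_zero, zero_pow (by positivity)]
      · rw [ih j, Fin.cons_succ]
    rw [h]
    have h2 : hmap d F i.succ = hz d (F i) := by simp [hmap]
    rw [h2, hz_lead d _ (hF i)]
    rfl

end points

end Pool.Agent.Lib.MP_9ec2c5_bp
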