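import Mathlib
import Pool.Agent.Lib.MP_9ec2c5_bp.Defs

/-!
Choice of the parameters.
-/

set_option autoImplicit false

namespace Pool.Agent.Lib.MP_9ec2c5_bp

open MvPolynomial
open Pool.Agent.Lib.MP_9ec2c5_gen (iter)

open Filter Topology in
theorem arith_choose_tendsto (N : ℕ) (x : ℕ → ℕ) (c : ℝ)
    (hx : Tendsto (fun t : ℕ => (x t : ℝ) / t) atTop (𝓝 c)) :
    Tendsto (fun t : ℕ => ((x t).choose N : ℝ) / (t : ℝ) ^ N) atTop
      (𝓝 (c ^ N / N.factorial)) := by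
  have h1 : ∀ t : ℕ, ((x t).choose N : ℝ) / (t : ℝ) ^ N =
      (∏ j ∈ Finset.range N, ((x t : ℝ) / t - (j : ℝ) / t)) / N.factorial := by
    intro t
    have h2 : ((N.factorial * (x t).choose N : ℕ) : ℝ) =
        ∏ j ∈ Finset.range N, ((x t : ℝ) - j) := by
      rw [← Nat.descFactorial_eq_factorial_mul_choose, ← descPochhammer_eval_eq_descFactorial,
        descPochhammer_eval_eq_prod_range]
    have hf : (N.factorial : ℝ) ≠ 0 := by exact_mod_cast N.factorial_ne_zero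
    have h3 : ∏ j ∈ Finset.range N, ((x t : ℝ) / t - (j : ℝ) / t) =
        (∏ j ∈ Finset.range N, ((x t : ℝ) - j)) / (t : ℝ) ^ N := by
      rw [← Finset.card_range N, ← Finset.prod_const, Finset.card_range,
        ← Finset.prod_div_distrib]
      exact Finset.prod_congr rfl fun j _ => by rw [sub_div]
    rw [h3, ← h2]
    push_cast
    rw [div_right_comm, mul_comm, mul_div_assoc, div_self hf, mul_one]
  simp only [h1]
  refine Tendsto.div_const ?_ _
  have h4 : c ^ N = ∏ _j ∈ Finset.range N, (c - 0) := by simp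
  rw [h4]
  refine tendsto_finsetProd _ fun j _ => hx.sub ?_
  exact tendsto_const_nhds.div_atTop tendsto_natCast_atTop_atTop

open Filter Topology in
theorem arith_ratio (c k : ℝ) : Tendsto (fun t : ℕ => (c * t + k) / (t : ℝ)) atTop (𝓝 c) := by
  have h1 : Tendsto (fun t : ℕ => c + k / (t : ℝ)) atTop (𝓝 (c + 0)) :=
    tendsto_const_nhds.add (tendsto_const_nhds.div_atTop tendsto_natCast_atTop_atTop)
  rw [add_zero] at h1
  refine h1.congr' ?_
  filter_upwards [eventually_ge_atTop 1] with t ht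
  have : (t : ℝ) ≠ 0 := by exact_mod_cast (by omega : t ≠ 0)
  field_simp

open Filter Topology in
theorem arith (N a δ M b e0 : ℕ) (hN : 1 ≤ N) (ha : 2 ≤ a) (hδ : 1 ≤ δ) (hM : 1 ≤ M) (hb : 1 ≤ b)
    (hmain : δ ^ N * a ^ N < (a - 1) ^ N * δ ^ N + M ^ N * a ^ N) :
    ∃ t : ℕ, 1 ≤ t ∧ e0 ≤ (a - 1) * t * δ + M * (a * t) * b ∧
      δ ^ N * (a * t + N - 1).choose N + ((a - 1) * t * δ + M * (a * t) * b + N).choose N <
        ((a - 1) * t * δ + N).choose N + (M * (a * t) + N - 1).choose N +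
          ((a - 1) * t * δ + M * (a * t) * b - e0 + N).choose N := by
  obtain ⟨a', rfl⟩ : ∃ a', a = a' + 1 := ⟨a - 1, by omega⟩
  rw [Nat.add_sub_cancel] at hmain ⊢
  have hbig : ∀ t : ℕ, e0 ≤ t → e0 ≤ a' * t * δ + M * ((a' + 1) * t) * b := by
    intro t ht
    have h1 : 1 * (1 * t) * 1 ≤ M * ((a' + 1) * t) * b :=
      Nat.mul_le_mul (Nat.mul_le_mul hM (Nat.mul_le_mul (by omega) le_rfl)) hb
    simp only [one_mul, mul_one] at h1
    omega
  -- the five sequences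
  have t1 : Tendsto (fun t : ℕ => (((a' + 1) * t + N - 1 : ℕ) : ℝ) / t) atTop
      (𝓝 ((a' : ℝ) + 1)) := by
    refine (arith_ratio ((a' : ℝ) + 1) ((N : ℝ) - 1)).congr fun t => ?_
    rw [Nat.add_sub_assoc hN]
    push_cast [hN]
    ring_nf
  have t2 : Tendsto (fun t : ℕ => ((a' * t * δ + M * ((a' + 1) * t) * b + N : ℕ) : ℝ) / t) atTop
      (𝓝 ((a' : ℝ) * δ + M * (a' + 1) * b)) := by
    refine (arith_ratio ((a' : ℝ) * δ + M * (a' + 1) * b) (N : ℝ)).congr fun t => ?_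
    push_cast
    ring_nf
  have t3 : Tendsto (fun t : ℕ => ((a' * t * δ + N : ℕ) : ℝ) / t) atTop (𝓝 ((a' : ℝ) * δ)) := by
    refine (arith_ratio ((a' : ℝ) * δ) (N : ℝ)).congr fun t => ?_
    push_cast
    ring_nf
  have t4 : Tendsto (fun t : ℕ => ((M * ((a' + 1) * t) + N - 1 : ℕ) : ℝ) / t) atTop
      (𝓝 ((M : ℝ) * (a' + 1))) := by
    refine (arith_ratio ((M : ℝ) * (a' + 1)) ((N : ℝ) - 1)).congr fun t => ?_
    rw [Nat.add_sub_assoc hN]
    push_cast [hN]
    ring_nf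
  have t5 : Tendsto (fun t : ℕ => ((a' * t * δ + M * ((a' + 1) * t) * b - e0 + N : ℕ) : ℝ) / t)
      atTop (𝓝 ((a' : ℝ) * δ + M * (a' + 1) * b)) := by
    refine (arith_ratio ((a' : ℝ) * δ + M * (a' + 1) * b) ((N : ℝ) - e0)).congr' ?_
    filter_upwards [eventually_ge_atTop e0] with t ht
    push_cast [hbig t ht]
    ring_nf
  have s1 := (arith_choose_tendsto N _ _ t1).const_mul ((δ : ℝ) ^ N)
  have s2 := arith_choose_tendsto N _ _ t2
  have s3 := arith_choose_tendsto N _ _ t3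
  have s4 := arith_choose_tendsto N _ _ t4
  have s5 := arith_choose_tendsto N _ _ t5
  have hlt : (δ : ℝ) ^ N * (((a' : ℝ) + 1) ^ N / N.factorial) +
      ((a' : ℝ) * δ + M * (a' + 1) * b) ^ N / N.factorial <
        ((a' : ℝ) * δ) ^ N / N.factorial + ((M : ℝ) * (a' + 1)) ^ N / N.factorial +
          ((a' : ℝ) * δ + M * (a' + 1) * b) ^ N / N.factorial := by
    have h1 : (δ : ℝ) ^ N * ((a' : ℝ) + 1) ^ N <
        (a' : ℝ) ^ N * (δ : ℝ) ^ N + (M : ℝ) ^ N * ((a' : ℝ) + 1) ^ N := by exact_mod_cast hmain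
    have hf : (0 : ℝ) < N.factorial := by exact_mod_cast N.factorial_pos
    rw [← mul_div_assoc, ← add_div, ← add_div, ← add_div, div_lt_div_iff_of_pos_right hf,
      mul_pow (a' : ℝ), mul_pow (M : ℝ)]
    linarith
  have hev := (s1.add s2).eventually_lt ((s3.add s4).add s5) hlt
  obtain ⟨t, ht, ht1, ht2⟩ := (hev.and ((eventually_ge_atTop 1).and
    (eventually_ge_atTop e0))).exists
  refine ⟨t, ht1, hbig t ht2, ?_⟩
  have htp : (0 : ℝ) < (t : ℝ) ^ N := by
    have : (0 : ℝ) < (t : ℝ) := by exact_mod_cast ht1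
    positivity
  rw [← mul_div_assoc, ← add_div, ← add_div, ← add_div, div_lt_div_iff_of_pos_right htp] at ht
  exact_mod_cast ht

/-- the choice `a = 2 * N * d ^ (j * N)` -/
theorem arith2 (N d j L : ℕ) (hN : 1 ≤ N) (hd : 2 ≤ d) (hj : j ≤ L) :
    (d ^ L) ^ N * (2 * N * d ^ (j * N)) ^ N <
      (2 * N * d ^ (j * N) - 1) ^ N * (d ^ L) ^ N + (d ^ (L - j)) ^ N * (2 * N * d ^ (j * N)) ^ N :=
  by
  have hD : 0 < d ^ (j * N) := by positivity
  have hA : 1 ≤ 2 * N * d ^ (j * N) := by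
    have := Nat.mul_le_mul (Nat.mul_le_mul (le_refl 2) hN) (Nat.succ_le_of_lt hD)
    omega
  obtain ⟨B, hB⟩ : ∃ B, 2 * N * d ^ (j * N) = B + 1 := ⟨2 * N * d ^ (j * N) - 1, by omega⟩
  have hBern : ∀ n : ℕ, (B + 1) ^ (n + 1) ≤ B ^ n * (B + 1) + n * (B + 1) ^ n := by
    intro n
    induction n with
    | zero => simp
    | succ n ih =>
      have h1 : B ^ n ≤ (B + 1) ^ n := Nat.pow_le_pow_left (Nat.le_succ B) n
      calc (B + 1) ^ (n + 1 + 1) = (B + 1) * (B + 1) ^ (n + 1) := by ring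
        _ ≤ (B + 1) * (B ^ n * (B + 1) + n * (B + 1) ^ n) := Nat.mul_le_mul_left _ ih
        _ = B ^ (n + 1) * (B + 1) + B ^ n * (B + 1) + n * (B + 1) ^ (n + 1) := by ring
        _ ≤ B ^ (n + 1) * (B + 1) + (B + 1) ^ n * (B + 1) + n * (B + 1) ^ (n + 1) := by
            have := Nat.mul_le_mul_right (B + 1) h1
            omega
        _ = _ := by ring
  have h2 := hBern N
  have hdL : (d ^ L) ^ N = d ^ (j * N) * (d ^ (L - j)) ^ N := by
    rw [← pow_mul, ← pow_mul, ← pow_add, ← add_mul, Nat.add_sub_cancel' hj]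
  have h3 : d ^ (j * N) * (B + 1) ^ N < B ^ N * d ^ (j * N) + (B + 1) ^ N := by
    have h4 : d ^ (j * N) * N < B + 1 := by
      rw [← hB]
      have : 0 < N * d ^ (j * N) := by positivity
      nlinarith
    have h5 : (B + 1) * (d ^ (j * N) * (B + 1) ^ N) <
        (B + 1) * (B ^ N * d ^ (j * N) + (B + 1) ^ N) := by
      have h6 : 0 < (B + 1) ^ N := by positivity
      calc (B + 1) * (d ^ (j * N) * (B + 1) ^ N) = d ^ (j * N) * (B + 1) ^ (N + 1) := by ring
        _ ≤ d ^ (j * N) * (B ^ N * (B + 1) + N * (B + 1) ^ N) := Nat.mul_le_mul_left _ h2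
        _ = (B + 1) * (B ^ N * d ^ (j * N)) + (d ^ (j * N) * N) * (B + 1) ^ N := by ring
        _ < (B + 1) * (B ^ N * d ^ (j * N)) + (B + 1) * (B + 1) ^ N :=
            Nat.add_lt_add_left (Nat.mul_lt_mul_of_pos_right h4 h6) _
        _ = _ := by ring
    exact Nat.lt_of_mul_lt_mul_left h5
  rw [hB, Nat.add_sub_cancel, hdL]
  have h7 : 0 < (d ^ (L - j)) ^ N := by positivity
  calc d ^ (j * N) * (d ^ (L - j)) ^ N * (B + 1) ^ N
      = (d ^ (L - j)) ^ N * (d ^ (j * N) * (B + 1) ^ N) := by ring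
    _ < (d ^ (L - j)) ^ N * (B ^ N * d ^ (j * N) + (B + 1) ^ N) :=
        Nat.mul_lt_mul_of_pos_left h3 h7
    _ = _ := by ring

end Pool.Agent.Lib.MP_9ec2c5_bp
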