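import Mathlib
import Pool.Agent.Lib.MP_9ec2c5_bp.Defs
import Pool.Agent.Lib.MP_9ec2c5_bp.Homog

/-!
Vectors outside the kernels of finitely many linear maps, and forms vanishing at few points.
-/

set_option autoImplicit false

namespace Pool.Agent.Lib.MP_9ec2c5_bp

open MvPolynomial
open Pool.Agent.Lib.MP_9ec2c5_gen (iter)

variable {K : Type} [Field K] {Ω : Type} [Field Ω] [Algebra K Ω]

/-- a vector outside the kernels of finitely many nonzero linear maps -/
theorem exists_avoid [Infinite K] {V : Type} [AddCommGroup V] [Module K V] {ι : Type}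
    (S : Set ι) (hS : S.Finite) (φ : ι → V →ₗ[K] Ω) (h : ∀ i ∈ S, φ i ≠ 0) :
    ∃ v : V, ∀ i ∈ S, φ i v ≠ 0 := by
  classical
  have hT : (⊤ : Submodule K V) ∉ hS.toFinset.image fun i => LinearMap.ker (φ i) := by
    intro hmem
    rw [Finset.mem_image] at hmem
    obtain ⟨i, hi, hker⟩ := hmem
    exact h i (hS.mem_toFinset.1 hi) (LinearMap.ker_eq_top.1 hker)
  have h1 := Subspace.biUnion_ne_univ_of_top_notMem hT
  rw [Set.ne_univ_iff_exists_notMem] at h1
  obtain ⟨v, hv⟩ := h1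
  refine ⟨v, fun i hi h0 => hv ?_⟩
  rw [Set.mem_iUnion₂]
  exact ⟨LinearMap.ker (φ i), Finset.mem_image_of_mem _ (hS.mem_toFinset.2 hi),
    LinearMap.mem_ker.2 h0⟩

/-- a linear form which does not vanish at finitely many given points -/
theorem exists_linear [Infinite K] {N : ℕ} (S : Set (Fin (N + 1) → Ω)) (hS : S.Finite) :
    ∃ l : MvPolynomial (Fin (N + 1)) K, l.IsHomogeneous 1 ∧ ∀ s ∈ S, s ≠ 0 → aeval s l ≠ 0 := by
  classical
  set φ : (Fin (N + 1) → Ω) → homogeneousSubmodule (Fin (N + 1)) K 1 →ₗ[K] Ω := fun s =>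
    (aeval s : MvPolynomial (Fin (N + 1)) K →ₐ[K] Ω).toLinearMap.comp
      (homogeneousSubmodule (Fin (N + 1)) K 1).subtype with hφ
  obtain ⟨v, hv⟩ := exists_avoid {s ∈ S | s ≠ 0} (hS.subset fun s hs => hs.1) φ (by
    rintro s ⟨-, hs⟩ h0
    obtain ⟨i, hi⟩ := Function.ne_iff.1 hs
    have := LinearMap.congr_fun h0 ⟨X i, isHomogeneous_X K i⟩
    rw [hφ] at this
    simp only [LinearMap.comp_apply, Submodule.subtype_apply, AlgHom.toLinearMap_apply, aeval_X,
      LinearMap.zero_apply] at this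
    exact hi (by simpa using this))
  exact ⟨v.1, v.2, fun s hs hs0 => hv s ⟨hs, hs0⟩⟩

/-- A nonzero form vanishing at `q` and at no point of a finite set which is not in the closure
of `q`. -/
theorem exists_form [Infinite K] {N : ℕ} (q : Fin (N + 1) → Ω) (S : Set (Fin (N + 1) → Ω))
    (hS : S.Finite) (hne : ∃ (e : ℕ) (f : MvPolynomial (Fin (N + 1)) K), 1 ≤ e ∧
      f.IsHomogeneous e ∧ f ≠ 0 ∧ aeval q f = 0) :
    ∃ (b : ℕ) (B : MvPolynomial (Fin (N + 1)) K), 1 ≤ b ∧ B.IsHomogeneous b ∧ B ≠ 0 ∧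
      aeval q B = 0 ∧ ∀ p ∈ S, ¬ Below K q p → aeval p B ≠ 0 := by
  classical
  by_cases hbad : ∃ p ∈ S, ¬ Below K q p
  swap
  · obtain ⟨e, f, he, hf, hf0, hfq⟩ := hne
    exact ⟨e, f, he, hf, hf0, hfq, fun p hp hb => absurd ⟨p, hp, hb⟩ hbad⟩
  -- separating forms
  have hsep : ∀ p : Fin (N + 1) → Ω, ∃ (e : ℕ), ¬ Below K q p →
      ∃ f : MvPolynomial (Fin (N + 1)) K, f.IsHomogeneous e ∧ aeval q f = 0 ∧ aeval p f ≠ 0 := by
    intro p
    by_cases hp : Below K q p
    · exact ⟨0, fun h => absurd hp h⟩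
    · have hp' := hp
      unfold Below at hp'
      push Not at hp'
      obtain ⟨e, f, hf, h1, h2⟩ := hp'
      exact ⟨e, fun _ => ⟨f, hf, h1, h2⟩⟩
  choose e he using hsep
  obtain ⟨b, hb1, hb⟩ : ∃ b : ℕ, 1 ≤ b ∧ ∀ p ∈ S, e p ≤ b :=
    ⟨hS.toFinset.sup e + 1, by omega, fun p hp =>
      (Finset.le_sup (f := e) (hS.mem_toFinset.2 hp)).trans (Nat.le_succ _)⟩
  set W : Submodule K (MvPolynomial (Fin (N + 1)) K) :=
    homogeneousSubmodule (Fin (N + 1)) K b ⊓
      LinearMap.ker (aeval q : MvPolynomial (Fin (N + 1)) K →ₐ[K] Ω).toLinearMap with hW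
  set φ : (Fin (N + 1) → Ω) → W →ₗ[K] Ω := fun s =>
    (aeval s : MvPolynomial (Fin (N + 1)) K →ₐ[K] Ω).toLinearMap.comp W.subtype with hφ
  obtain ⟨v, hv⟩ := exists_avoid {p ∈ S | ¬ Below K q p} (hS.subset fun s hs => hs.1) φ (by
    rintro p ⟨hpS, hp⟩ h0
    obtain ⟨f, hf, hfq, hfp⟩ := he p hp
    -- the point `p` is not zero
    have hp0 : p ≠ 0 := by
      rintro rfl
      rcases Nat.eq_zero_or_pos (e 0) with h1 | h1
      · rw [h1] at hf
        have hC : f = C (coeff 0 f) :=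
          totalDegree_eq_zero_iff_eq_C.1 (Nat.le_zero.1 hf.totalDegree_le)
        rw [hC, aeval_C] at hfq hfp
        exact hfp hfq
      · apply hfp
        have := aeval_smul_hom f (e 0) hf (0 : Ω) (0 : Fin (N + 1) → Ω)
        rwa [zero_pow h1.ne', zero_mul, smul_zero] at this
    obtain ⟨k, hk⟩ := Function.ne_iff.1 hp0
    simp only [Pi.zero_apply] at hk
    have hmem : f * X k ^ (b - e p) ∈ W := by
      refine ⟨?_, ?_⟩
      · have := hf.mul ((isHomogeneous_X K k).pow (b - e p))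
        rw [one_mul, Nat.add_sub_cancel' (hb p hpS)] at this
        exact this
      · change aeval q (f * X k ^ (b - e p)) = 0
        rw [map_mul, hfq, zero_mul]
    have := LinearMap.congr_fun h0 ⟨_, hmem⟩
    rw [hφ] at this
    simp only [LinearMap.comp_apply, Submodule.subtype_apply, AlgHom.toLinearMap_apply, map_mul,
      map_pow, aeval_X, LinearMap.zero_apply, mul_eq_zero] at this
    rcases this with h1 | h1
    · exact hfp h1
    · exact pow_ne_zero _ hk h1)
  obtain ⟨p0, hp0S, hp0⟩ := hbad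
  refine ⟨b, v.1, hb1, v.2.1, ?_, v.2.2, fun p hp hpB => hv p ⟨hp, hpB⟩⟩
  intro h0
  apply hv p0 ⟨hp0S, hp0⟩
  change aeval p0 (v.1) = 0
  rw [h0, map_zero]

/-- finitely many lines do not cover a space of dimension at least two -/
theorem exists_ne_zero_of_finLines [Infinite Ω] {N : ℕ} (hN : 1 ≤ N) {τ : Type}
    (h : τ → MvPolynomial (Fin (N + 1)) K) (hfin : FinLines (Zer Ω h)) : ∃ i, h i ≠ 0 := by
  classical
  by_contra hall
  push Not at hall
  obtain ⟨S, hS, hcov⟩ := hfin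
  have hk : (⟨1, by omega⟩ : Fin (N + 1)) ≠ 0 := by
    intro h
    have := congrArg Fin.val h
    simp at this
  have hpt : ∀ t : Ω, ∃ s : S, ∃ c : Ω, (Function.update (Pi.single 0 1) ⟨1, by omega⟩ t :
      Fin (N + 1) → Ω) = c • (s : Fin (N + 1) → Ω) := by
    intro t
    obtain ⟨s, hs, c, hc⟩ := hcov (Function.update (Pi.single 0 1) ⟨1, by omega⟩ t) (fun j => by
      rw [hall j, map_zero])
    exact ⟨⟨s, hs⟩, c, hc⟩
  choose s c hc using hpt
  have : Finite S := hS
  obtain ⟨t, t', htt, hst⟩ := Finite.exists_ne_map_eq_of_infinite s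
  apply htt
  have h0 := congrFun (hc t) 0
  have h0' := congrFun (hc t') 0
  have h1 := congrFun (hc t) ⟨1, by omega⟩
  have h1' := congrFun (hc t') ⟨1, by omega⟩
  rw [Function.update_of_ne hk.symm, Pi.single_eq_same, Pi.smul_apply, smul_eq_mul] at h0 h0'
  rw [Function.update_self, Pi.smul_apply, smul_eq_mul] at h1 h1'
  rw [← hst] at h0' h1'
  have hs0 : (s t : Fin (N + 1) → Ω) 0 ≠ 0 := by
    intro hz
    rw [hz, mul_zero] at h0
    exact one_ne_zero h0
  have hcc : c t = c t' := mul_right_cancel₀ hs0 (h0.symm.trans h0')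
  rw [h1, h1', hcc]

end Pool.Agent.Lib.MP_9ec2c5_bp
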