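import Mathlib
import Pool.Agent.Lib.MP_9ec2c5_bp.Defs

/-!
The dimension of the space of forms of a given degree.
-/

set_option autoImplicit false

namespace Pool.Agent.Lib.MP_9ec2c5_bp

open MvPolynomial
open Pool.Agent.Lib.MP_9ec2c5_gen (iter)

variable {K : Type} [Field K]

theorem homDim_finite (M m : ℕ) : Finite {d : Fin M →₀ ℕ // d.degree = m} := by
  refine Set.Finite.subset ((Finset.univ : Finset (Fin M)).finsuppAntidiag m).finite_toSet ?_
  intro d hd
  rw [Finset.mem_coe, Finset.mem_finsuppAntidiag]
  refine ⟨?_, Finset.subset_univ _⟩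
  have h : Finsupp.degree d = m := hd
  rw [← h, Finsupp.degree_eq_sum]

theorem homDim_span (M m : ℕ) : homogeneousSubmodule (Fin M) K m =
    Submodule.span K (Set.range fun d : {d : Fin M →₀ ℕ // d.degree = m} =>
      (monomial d.1 (1 : K))) := by
  apply le_antisymm
  · intro p hp
    rw [p.as_sum]
    refine Submodule.sum_mem _ fun d hd => ?_
    have h1 : monomial d (coeff d p) = coeff d p • monomial d (1 : K) := by
      rw [smul_monomial, smul_eq_mul, mul_one]
    rw [h1]
    refine Submodule.smul_mem _ _ (Submodule.subset_span ⟨⟨d, ?_⟩, rfl⟩)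
    have h2 := ((mem_homogeneousSubmodule m p).1 hp) (mem_support_iff.1 hd)
    rwa [Finsupp.degree_eq_weight_one]
  · rw [Submodule.span_le]
    rintro _ ⟨d, rfl⟩
    exact isHomogeneous_monomial _ d.2

theorem homDim_indep (M m : ℕ) : LinearIndependent K
    (fun d : {d : Fin M →₀ ℕ // d.degree = m} => (monomial d.1 (1 : K))) := by
  have h := (MvPolynomial.basisMonomials (Fin M) K).linearIndependent.comp
    (Subtype.val : {d : Fin M →₀ ℕ // d.degree = m} → _) Subtype.val_injective
  simpa [Function.comp_def, MvPolynomial.coe_basisMonomials] using h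

theorem finite_homog (M m : ℕ) : Module.Finite K (homogeneousSubmodule (Fin M) K m) := by
  have := homDim_finite M m
  rw [homDim_span]
  exact Module.Finite.span_of_finite K (Set.finite_range _)

theorem finrank_homog (N m : ℕ) :
    Module.finrank K (homogeneousSubmodule (Fin (N + 1)) K m) = (m + N).choose N := by
  have := homDim_finite (N + 1) m
  have := Fintype.ofFinite {d : Fin (N + 1) →₀ ℕ // d.degree = m}
  rw [homDim_span, finrank_span_eq_card (homDim_indep (N + 1) m)]
  have h1 : Fintype.card {d : Fin (N + 1) →₀ ℕ // d.degree = m} =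
      ((Finset.univ : Finset (Fin (N + 1))).finsuppAntidiag m).card := by
    rw [← Fintype.card_coe]
    refine Fintype.card_congr (Equiv.subtypeEquivRight fun d => ?_)
    rw [Finset.mem_finsuppAntidiag]
    simp [Finsupp.degree_eq_sum]
  rw [h1, Finset.card_finsuppAntidiag_nat_eq_choose, Finset.card_univ, Fintype.card_fin]
  have h2 : N + 1 + m - 1 = m + N := by omega
  rw [h2]
  exact Nat.choose_symm_add

end Pool.Agent.Lib.MP_9ec2c5_bp
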