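import Mathlib
import Pool.Agent.Lib.MP_9ec2c5_bp.Defs

/-!
Points conjugate over the ground field.
-/

set_option autoImplicit false

namespace Pool.Agent.Lib.MP_9ec2c5_bp

open MvPolynomial
open Pool.Agent.Lib.MP_9ec2c5_gen (iter)

variable {K : Type} [Field K] {Ω : Type} [Field Ω] [Algebra K Ω]

namespace ConjLAux

/-- The homogenised minimal polynomial of `f / g`. -/
noncomputable def fm {σ : Type} (P : Polynomial K) (f g : MvPolynomial σ K) : MvPolynomial σ K :=
  ∑ j ∈ Finset.range (P.natDegree + 1), C (P.coeff j) * f ^ j * g ^ (P.natDegree - j)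

lemma fm_hom {σ : Type} (P : Polynomial K) {f g : MvPolynomial σ K} {e : ℕ}
    (hf : f.IsHomogeneous e) (hg : g.IsHomogeneous e) :
    (fm P f g).IsHomogeneous (e * P.natDegree) := by
  refine IsHomogeneous.sum _ _ _ fun j hj => ?_
  have h := ((isHomogeneous_C σ (P.coeff j)).mul (hf.pow j)).mul (hg.pow (P.natDegree - j))
  have e1 : 0 + e * j + e * (P.natDegree - j) = e * P.natDegree := by
    rw [zero_add, ← Nat.mul_add]
    congr 1
    have := Finset.mem_range.1 hj
    omega
  rwa [e1] at h

lemma fm_aeval {σ : Type} (P : Polynomial K) (f g : MvPolynomial σ K) (x : σ → Ω) :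
    aeval x (fm P f g) = ∑ j ∈ Finset.range (P.natDegree + 1),
      algebraMap K Ω (P.coeff j) * (aeval x f) ^ j * (aeval x g) ^ (P.natDegree - j) := by
  unfold fm
  rw [map_sum]
  refine Finset.sum_congr rfl fun j _ => ?_
  rw [map_mul, map_mul, map_pow, map_pow, aeval_C]

lemma fm_zero {σ : Type} (f g : MvPolynomial σ K) (q : σ → Ω) (hg : aeval q g ≠ 0) :
    aeval q (fm (minpoly K (aeval q f / aeval q g)) f g) = 0 := by
  set P := minpoly K (aeval q f / aeval q g) with hP
  have h : Polynomial.aeval (aeval q f / aeval q g) P = 0 := minpoly.aeval _ _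
  rw [Polynomial.aeval_eq_sum_range] at h
  rw [fm_aeval]
  have e : ∀ j ∈ Finset.range (P.natDegree + 1),
      algebraMap K Ω (P.coeff j) * (aeval q f) ^ j * (aeval q g) ^ (P.natDegree - j)
      = (aeval q g) ^ P.natDegree * (P.coeff j • (aeval q f / aeval q g) ^ j) := by
    intro j hj
    have hj' : j ≤ P.natDegree := by
      have := Finset.mem_range.1 hj
      omega
    rw [Algebra.smul_def, div_pow]
    have : (aeval q g) ^ P.natDegree = (aeval q g) ^ (P.natDegree - j) * (aeval q g) ^ j := by
      rw [← pow_add]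
      congr 1
      omega
    rw [this]
    field_simp
  rw [Finset.sum_congr rfl e, ← Finset.mul_sum, h, mul_zero]

end ConjLAux

open ConjLAux in
/-- For points with algebraic coordinates the relation `Below` is symmetric. -/
theorem below_symm [Algebra.IsAlgebraic K Ω] {σ : Type} (q p : σ → Ω) (hq : q ≠ 0) (hp : p ≠ 0)
    (h : Below K q p) : Below K p q := by
  -- the main relation
  have key : ∀ (e : ℕ) (f g : MvPolynomial σ K), f.IsHomogeneous e → g.IsHomogeneous e →
      aeval q g ≠ 0 → aeval p (fm (minpoly K (aeval q f / aeval q g)) f g) = 0 :=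
    fun e f g hf hg hgq => h _ _ (fm_hom _ hf hg) (fm_zero f g q hgq)
  obtain ⟨k, hk⟩ := Function.ne_iff.1 hq
  simp only [Pi.zero_apply] at hk
  have hpk : p k ≠ 0 := by
    intro hpk
    apply hp
    funext l
    rw [Pi.zero_apply]
    have h1 := key 1 (X l) (X k) (isHomogeneous_X _ _) (isHomogeneous_X _ _) (by rwa [aeval_X])
    rw [fm_aeval, aeval_X, aeval_X, aeval_X, aeval_X] at h1
    set P := minpoly K (q l / q k) with hP
    have hint : IsIntegral K (q l / q k) := Algebra.IsIntegral.isIntegral _
    have hpos : 0 < P.natDegree := minpoly.natDegree_pos hint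
    rw [Finset.sum_eq_single P.natDegree] at h1
    · rw [Nat.sub_self, pow_zero, mul_one, (minpoly.monic hint).coeff_natDegree, map_one,
        one_mul] at h1
      exact pow_eq_zero_iff hpos.ne' |>.1 h1
    · intro j hj hj'
      have : P.natDegree - j ≠ 0 := by
        have := Finset.mem_range.1 hj
        omega
      rw [hpk, zero_pow this, mul_zero]
    · intro hn
      exact absurd (Finset.mem_range.2 (Nat.lt_succ_self _)) hn
  intro e f hf hfp
  by_contra hfq
  have hg : (X k ^ e : MvPolynomial σ K).IsHomogeneous e := by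
    have := (isHomogeneous_X K k).pow e
    rwa [one_mul] at this
  have hgq : aeval q (X k ^ e : MvPolynomial σ K) ≠ 0 := by
    rw [map_pow, aeval_X]
    exact pow_ne_zero _ hk
  have h1 := key e f (X k ^ e) hf hg hgq
  rw [fm_aeval] at h1
  set z := aeval q f / aeval q (X k ^ e : MvPolynomial σ K) with hz
  have hz0 : z ≠ 0 := div_ne_zero hfq hgq
  have hint : IsIntegral K z := Algebra.IsIntegral.isIntegral _
  have hc : (minpoly K z).coeff 0 ≠ 0 := by
    rw [Ne, minpoly.coeff_zero_eq_zero hint]
    exact hz0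
  rw [Finset.sum_eq_single 0] at h1
  · rw [pow_zero, mul_one, Nat.sub_zero, map_pow, aeval_X, mul_eq_zero] at h1
    rcases h1 with h1 | h1
    · exact hc ((map_eq_zero _).1 h1)
    · exact pow_ne_zero _ (pow_ne_zero _ hpk) h1
  · intro j _ hj
    rw [hfp, zero_pow hj, mul_zero, zero_mul]
  · intro hn
    exact absurd (Finset.mem_range.2 (Nat.succ_pos _)) hn

end Pool.Agent.Lib.MP_9ec2c5_bp
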