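import Mathlib
import Pool.Agent.Lib.MP_9ec2c5_bp.Defs

/-!
An example of leading forms.
-/

set_option autoImplicit false

namespace Pool.Agent.Lib.MP_9ec2c5_bp

open MvPolynomial
open Pool.Agent.Lib.MP_9ec2c5_gen (iter)

/-- The common factor of the iterates. -/
private def exC {Ω : Type} [Field Ω] (a b : Ω) : ℕ → Ω
  | 0 => 1
  | n + 1 => exC a b n ^ 3 * (a ^ 2 ^ n - b ^ 2 ^ n)

private theorem exC_zero {Ω : Type} [Field Ω] (a b : Ω) (n : ℕ) :
    exC a b n = 0 ↔ ∃ i < n, a ^ 2 ^ i = b ^ 2 ^ i := by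
  induction n with
  | zero => simp [exC]
  | succ n ih =>
    rw [exC, mul_eq_zero, pow_eq_zero_iff (by norm_num), ih, sub_eq_zero]
    constructor
    · rintro (⟨i, hi, h⟩ | h)
      · exact ⟨i, by omega, h⟩
      · exact ⟨n, by omega, h⟩
    · rintro ⟨i, hi, h⟩
      rcases Nat.lt_succ_iff_lt_or_eq.1 hi with h1 | rfl
      · exact Or.inl ⟨i, h1, h⟩
      · exact Or.inr h

private theorem ex_iter {K : Type} [Field K] {Ω : Type} [Field Ω] [Algebra K Ω] (m : ℕ)
    (F : Fin (m + 2) → MvPolynomial (Fin (m + 2)) K)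
    (h0 : homogeneousComponent 3 (F 0) = (X 0 - X 1) * X 0 ^ 2)
    (h1 : homogeneousComponent 3 (F 1) = (X 0 - X 1) * X 1 ^ 2)
    (h2 : ∀ i, i ≠ 0 → i ≠ 1 → homogeneousComponent 3 (F i) = X i ^ 3)
    (x : Fin (m + 2) → Ω) (n : ℕ) :
    aeval x (iter (lead 3 F) n 0) = exC (x 0) (x 1) n * x 0 ^ 2 ^ n ∧
      aeval x (iter (lead 3 F) n 1) = exC (x 0) (x 1) n * x 1 ^ 2 ^ n ∧
      ∀ i, i ≠ 0 → i ≠ 1 → aeval x (iter (lead 3 F) n i) = x i ^ 3 ^ n := by
  induction n with
  | zero => simp [iter, exC]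
  | succ n ih =>
    obtain ⟨e0, e1, e2⟩ := ih
    refine ⟨?_, ?_, fun i hi hi' => ?_⟩
    · change aeval x (bind₁ (iter (lead 3 F) n) (homogeneousComponent 3 (F 0))) = _
      rw [h0, aeval_bind₁, map_mul, map_sub, map_pow, aeval_X, aeval_X, e0, e1, exC]
      ring
    · change aeval x (bind₁ (iter (lead 3 F) n) (homogeneousComponent 3 (F 1))) = _
      rw [h1, aeval_bind₁, map_mul, map_sub, map_pow, aeval_X, aeval_X, e0, e1, exC]
      ring
    · change aeval x (bind₁ (iter (lead 3 F) n) (homogeneousComponent 3 (F i))) = _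
      rw [h2 i hi hi', aeval_bind₁, map_pow, aeval_X, e2 i hi hi']
      ring

/-- The point `[ζ : 1 : 0 : .. : 0]`. -/
private noncomputable def exV {Ω : Type} [Field Ω] (m : ℕ) (z : Ω) : Fin (m + 2) → Ω :=
  fun i => if i = 0 then z else if i = 1 then 1 else 0

private theorem exV_ne {Ω : Type} [Field Ω] (m : ℕ) (z : Ω) : exV m z ≠ 0 := by
  intro h
  have h1 := congrFun h 1
  simp [exV] at h1

/-- The leading forms `(x_0 - x_1) x_0 ^ 2`, `(x_0 - x_1) x_1 ^ 2`, `x_i ^ 3` for `i ≥ 2`: the
points at infinity eventually mapped to indeterminacy are `[ζ : 1 : 0 : .. : 0]`, where `ζ` is a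
root of unity of order a power of two. -/
theorem example_bad {K : Type} [Field K] [CharZero K] (m : ℕ)
    (F : Fin (m + 2) → MvPolynomial (Fin (m + 2)) K)
    (h0 : homogeneousComponent 3 (F 0) = (X 0 - X 1) * X 0 ^ 2)
    (h1 : homogeneousComponent 3 (F 1) = (X 0 - X 1) * X 1 ^ 2)
    (h2 : ∀ i, i ≠ 0 → i ≠ 1 → homogeneousComponent 3 (F i) = X i ^ 3) :
    (∀ n, (BadPoints 3 F n).Finite) ∧ (⋃ n, BadPoints 3 F n).Infinite := by
  classical
  constructor
  · intro n
    have hfin : {z : AlgebraicClosure K | z ^ 2 ^ n = 1}.Finite := by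
      have hpos : 0 < 2 ^ n := by positivity
      refine (Polynomial.nthRootsFinset (2 ^ n) (1 : AlgebraicClosure K)).finite_toSet.subset ?_
      intro z hz
      exact (Polynomial.mem_nthRootsFinset hpos 1).2 hz
    refine (hfin.image fun z => Projectivization.mk (AlgebraicClosure K) (exV m z)
      (exV_ne m z)).subset ?_
    intro p hp
    obtain ⟨e0, e1, e2⟩ := ex_iter (Ω := AlgebraicClosure K) m F h0 h1 h2 p.rep n
    have hx : ∀ i, i ≠ 0 → i ≠ 1 → p.rep i = 0 := by
      intro i hi hi'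
      have h3 := hp i
      rw [e2 i hi hi'] at h3
      exact eq_zero_of_pow_eq_zero h3
    have hne : ¬ (p.rep 0 = 0 ∧ p.rep 1 = 0) := by
      rintro ⟨h3, h4⟩
      refine p.rep_nonzero (funext fun i => ?_)
      by_cases hi : i = 0
      · rw [hi, h3]
        rfl
      · by_cases hi' : i = 1
        · rw [hi', h4]
          rfl
        · rw [hx i hi hi']
          rfl
    have hc : exC (p.rep 0) (p.rep 1) n = 0 := by
      by_contra hc
      refine hne ⟨?_, ?_⟩
      · have h3 := hp 0
        rw [e0] at h3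
        exact eq_zero_of_pow_eq_zero ((mul_eq_zero.1 h3).resolve_left hc)
      · have h3 := hp 1
        rw [e1] at h3
        exact eq_zero_of_pow_eq_zero ((mul_eq_zero.1 h3).resolve_left hc)
    obtain ⟨i, hi, hii⟩ := (exC_zero _ _ _).1 hc
    have h11 : p.rep 1 ≠ 0 := by
      intro h3
      refine hne ⟨?_, h3⟩
      rw [h3, zero_pow (by positivity)] at hii
      exact eq_zero_of_pow_eq_zero hii
    refine ⟨p.rep 0 / p.rep 1, ?_, ?_⟩
    · change (p.rep 0 / p.rep 1) ^ 2 ^ n = 1
      have h3 : (p.rep 0 / p.rep 1) ^ 2 ^ i = 1 := by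
        rw [div_pow, hii, div_self (pow_ne_zero _ h11)]
      obtain ⟨k, rfl⟩ : ∃ k, n = i + k := ⟨n - i, by omega⟩
      rw [pow_add, pow_mul, h3, one_pow]
    · change Projectivization.mk (AlgebraicClosure K) (exV m (p.rep 0 / p.rep 1)) _ = p
      conv_rhs => rw [← p.mk_rep]
      refine (Projectivization.mk_eq_mk_iff' _ _ _ _ _).2 ⟨(p.rep 1)⁻¹, funext fun i => ?_⟩
      rw [Pi.smul_apply, smul_eq_mul]
      by_cases hi : i = 0
      · rw [hi]
        simp only [exV, if_true]
        rw [inv_mul_eq_div]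
      · by_cases hi' : i = 1
        · rw [hi']
          simp only [exV, if_true]
          rw [if_neg (by simp), inv_mul_cancel₀ h11]
        · rw [hx i hi hi', mul_zero]
          simp only [exV, if_neg hi, if_neg hi']
  · have hz : ∀ n : ℕ, ∃ z : AlgebraicClosure K, IsPrimitiveRoot z (2 ^ n) := by
      intro n
      have : NeZero ((2 ^ n : ℕ) : AlgebraicClosure K) := ⟨by
        have : (2 : AlgebraicClosure K) ≠ 0 := two_ne_zero
        push_cast
        exact pow_ne_zero _ this⟩
      have hd : (Polynomial.cyclotomic (2 ^ n) (AlgebraicClosure K)).degree ≠ 0 := by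
        rw [Polynomial.degree_cyclotomic]
        have : 0 < Nat.totient (2 ^ n) := Nat.totient_pos.2 (by positivity)
        exact_mod_cast this.ne'
      obtain ⟨z, hz⟩ := IsAlgClosed.exists_root _ hd
      exact ⟨z, Polynomial.isRoot_cyclotomic_iff.1 hz⟩
    choose z hz using hz
    refine Set.infinite_of_injective_forall_mem (f := fun n : ℕ =>
      Projectivization.mk (AlgebraicClosure K) (exV m (z n)) (exV_ne m (z n))) ?_ ?_
    · intro n n' h
      obtain ⟨a, ha⟩ := (Projectivization.mk_eq_mk_iff' _ _ _ _ _).1 h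
      have e1 := congrFun ha 1
      have e0 := congrFun ha 0
      simp only [Pi.smul_apply, exV, smul_eq_mul, if_true] at e0 e1
      have h10 : ¬ ((1 : Fin (m + 2)) = 0) := by simp
      rw [if_neg h10, if_neg h10, mul_one] at e1
      rw [e1, one_mul] at e0
      have h3 : 2 ^ n' = 2 ^ n := (hz n').unique (e0 ▸ hz n)
      exact (Nat.pow_right_injective le_rfl h3).symm
    · intro n
      rw [Set.mem_iUnion]
      refine ⟨n + 1, ?_⟩
      obtain ⟨a, ha⟩ := Projectivization.exists_smul_eq_mk_rep (AlgebraicClosure K)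
        (exV m (z n)) (exV_ne m (z n))
      obtain ⟨e0, e1, e2⟩ := ex_iter (Ω := AlgebraicClosure K) m F h0 h1 h2
        (Projectivization.mk (AlgebraicClosure K) (exV m (z n)) (exV_ne m (z n))).rep (n + 1)
      have x0 : (Projectivization.mk (AlgebraicClosure K) (exV m (z n))
          (exV_ne m (z n))).rep 0 = a * z n := by
        rw [← ha]
        simp [exV, Units.smul_def]
      have x1 : (Projectivization.mk (AlgebraicClosure K) (exV m (z n))
          (exV_ne m (z n))).rep 1 = a := by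
        rw [← ha]
        simp [exV, Units.smul_def]
      have hc : exC ((Projectivization.mk (AlgebraicClosure K) (exV m (z n))
          (exV_ne m (z n))).rep 0) ((Projectivization.mk (AlgebraicClosure K) (exV m (z n))
          (exV_ne m (z n))).rep 1) (n + 1) = 0 := by
        rw [exC_zero]
        refine ⟨n, by omega, ?_⟩
        rw [x0, x1, mul_pow, (hz n).pow_eq_one, mul_one]
      intro i
      by_cases hi : i = 0
      · rw [hi, e0, hc, zero_mul]
      · by_cases hi' : i = 1
        · rw [hi', e1, hc, zero_mul]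
        · rw [e2 i hi hi', ← ha]
          simp [exV, hi, hi']

end Pool.Agent.Lib.MP_9ec2c5_bp
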