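import Mathlib
import Pool.Agent.Lib.MP_9ec2c5_bp.Defs

/-!
Positive dimensional fibres on closed subsets.
-/

set_option autoImplicit false

namespace Pool.Agent.Lib.MP_9ec2c5_bp

open MvPolynomial
open Pool.Agent.Lib.MP_9ec2c5_gen (iter)

namespace FLFibre

open Polynomial in
/-- extension of homomorphisms to algebraically closed fields, one generator -/
theorem step {A L Ω : Type} [CommRing A] [IsDomain A] [Field L] [Field Ω] [IsAlgClosed Ω]
    (ι : A →+* L) (hι : Function.Injective ι) (b : L) (V : A[X]) (hV : V.eval₂ ι b ≠ 0) :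
    ∃ u : A, u ≠ 0 ∧ ∀ f : A →+* Ω, f u ≠ 0 →
      ∃ ξ : Ω, (∀ P : A[X], P.eval₂ ι b = 0 → P.eval₂ f ξ = 0) ∧ V.eval₂ f ξ ≠ 0 := by
  classical
  by_cases h : ∀ P : A[X], P.eval₂ ι b = 0 → P = 0
  · have hV0 : V ≠ 0 := by
      rintro rfl
      simp at hV
    refine ⟨V.leadingCoeff, by simpa using hV0, fun f hf => ?_⟩
    have h1 : V.map f ≠ 0 := by
      intro h2
      apply hf
      have := congrArg (fun p => Polynomial.coeff p V.natDegree) h2
      simpa using this
    have h2 : ∃ ξ : Ω, (V.map f).eval ξ ≠ 0 := by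
      by_contra h3
      push Not at h3
      exact h1 (Polynomial.funext fun r => by simpa using h3 r)
    obtain ⟨ξ, hξ⟩ := h2
    refine ⟨ξ, fun P hP => ?_, ?_⟩
    · rw [h P hP]
      simp
    · rwa [Polynomial.eval₂_eq_eval_map]
  · push Not at h
    obtain ⟨p0, hp0, hp0'⟩ := h
    obtain ⟨p, hp, hmin⟩ := WellFounded.has_min
      (measure (fun p : A[X] => p.natDegree)).wf {p : A[X] | p ≠ 0 ∧ p.eval₂ ι b = 0}
      ⟨p0, hp0', hp0⟩
    have hmin' : ∀ P : A[X], P ≠ 0 → P.eval₂ ι b = 0 → p.natDegree ≤ P.natDegree := by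
      intro P h1 h2
      by_contra h3
      exact hmin P ⟨h1, h2⟩ (not_le.1 h3)
    have hpd : 0 < p.natDegree := by
      by_contra h3
      have h4 : p.natDegree = 0 := by omega
      obtain ⟨c, hc⟩ := Polynomial.natDegree_eq_zero.1 h4
      have h5 := hp.2
      rw [← hc, Polynomial.eval₂_C] at h5
      apply hp.1
      rw [← hc, hι (h5.trans (map_zero ι).symm), Polynomial.C_0]
    let : Algebra A L := ι.toAlgebra
    have halg : IsAlgebraic A (V.eval₂ ι b) := by
      have hb : IsAlgebraic A b := ⟨p, hp.1, hp.2⟩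
      have := Algebra.isAlgebraic_adjoin_singleton_iff.mpr hb
      exact this _ (aeval_mem_adjoin_singleton (R := A) b)
    obtain ⟨q, hq0, hq⟩ := halg.exists_nonzero_coeff_and_aeval_eq_zero
      (mem_nonZeroDivisors_of_ne_zero hV)
    have hq' : (q.comp V).eval₂ ι b = 0 := by
      rw [Polynomial.eval₂_comp]
      exact hq
    refine ⟨p.leadingCoeff * q.coeff 0, mul_ne_zero (by simpa using hp.1) hq0, fun f hf => ?_⟩
    rw [map_mul] at hf
    have hf1 : f p.leadingCoeff ≠ 0 := left_ne_zero_of_mul hf
    have hf2 : f (q.coeff 0) ≠ 0 := right_ne_zero_of_mul hf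
    have hroot : ∃ ξ : Ω, p.eval₂ f ξ = 0 := by
      have h6 : (p.map f).degree ≠ 0 := by
        rw [Polynomial.degree_map_eq_of_leadingCoeff_ne_zero f hf1]
        intro h7
        rw [Polynomial.degree_eq_natDegree hp.1] at h7
        have : p.natDegree = 0 := by exact_mod_cast h7
        omega
      obtain ⟨ξ, hξ⟩ := IsAlgClosed.exists_root _ h6
      refine ⟨ξ, ?_⟩
      rw [Polynomial.eval₂_eq_eval_map]
      exact hξ
    obtain ⟨ξ, hξ⟩ := hroot
    have key : ∀ (n : ℕ) (P : A[X]), P.natDegree = n → P.eval₂ ι b = 0 → P.eval₂ f ξ = 0 := by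
      intro n
      induction n using Nat.strong_induction_on with
      | _ n ih =>
        intro P hn hP
        by_cases hP0 : P = 0
        · rw [hP0]
          simp
        · have h8 := hmin' P hP0 hP
          have h9 := Polynomial.natDegree_cancelLeads_lt_of_natDegree_le_natDegree h8 (by omega)
          have h10 : (p.cancelLeads P).eval₂ ι b = 0 := by
            simp [Polynomial.cancelLeads, Polynomial.eval₂_sub, Polynomial.eval₂_mul, hP, hp.2]
          have h11 := ih _ (by omega) (p.cancelLeads P) rfl h10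
          simp only [Polynomial.cancelLeads, Polynomial.eval₂_sub, Polynomial.eval₂_mul, hξ,
            mul_zero, sub_zero, Polynomial.eval₂_C, Polynomial.eval₂_X_pow,
            Nat.sub_eq_zero_of_le h8, pow_zero, mul_one] at h11
          exact (mul_eq_zero.1 h11).resolve_left hf1
    refine ⟨ξ, fun P hP => key _ P rfl hP, fun hVξ => ?_⟩
    have h12 := key _ _ rfl hq'
    rw [Polynomial.eval₂_comp, hVξ, Polynomial.eval₂_at_zero] at h12
    exact hf2 h12

/-- extension of homomorphisms to algebraically closed fields, finitely many generators -/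
theorem ext {L Ω : Type} [Field L] [Field Ω] [IsAlgClosed Ω] (n : ℕ) :
    ∀ (A : Type) [CommRing A] [IsDomain A] (ι : A →+* L) (_ : Function.Injective ι)
    (b : Fin n → L) (V : MvPolynomial (Fin n) A) (_ : V.eval₂ ι b ≠ 0),
    ∃ u : A, u ≠ 0 ∧ ∀ f : A →+* Ω, f u ≠ 0 →
      ∃ ξ : Fin n → Ω, (∀ P : MvPolynomial (Fin n) A, P.eval₂ ι b = 0 → P.eval₂ f ξ = 0) ∧
        V.eval₂ f ξ ≠ 0 := by
  induction n with
  | zero =>
    intro A _ _ ι hι b V hV
    have hC : ∀ P : MvPolynomial (Fin 0) A, ∃ a, P = C a := fun P => by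
      refine ⟨P.coeff 0, ?_⟩
      exact MvPolynomial.eq_C_of_isEmpty P
    obtain ⟨v, rfl⟩ := hC V
    rw [MvPolynomial.eval₂_C] at hV
    refine ⟨v, fun h => hV (by rw [h, map_zero]), fun f hf => ⟨fun i => i.elim0, ?_, ?_⟩⟩
    · intro P hP
      obtain ⟨a, rfl⟩ := hC P
      rw [MvPolynomial.eval₂_C] at hP ⊢
      rw [hι (hP.trans (map_zero ι).symm), map_zero]
    · rwa [MvPolynomial.eval₂_C]
  | succ n ih =>
    intro A _ _ ι hι b V hV
    let E : Polynomial A →+* L := Polynomial.eval₂RingHom ι (b 0)
    let ρ : A →+* E.range := E.rangeRestrict.comp Polynomial.C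
    let T : MvPolynomial (Fin (n + 1)) A →+* MvPolynomial (Fin n) E.range :=
      MvPolynomial.eval₂Hom ((C).comp ρ) (Fin.cons (C (E.rangeRestrict Polynomial.X)) X)
    have hT : ∀ P, (T P).eval₂ E.range.subtype (fun i => b i.succ) = P.eval₂ ι b := by
      intro P
      have : (MvPolynomial.eval₂Hom E.range.subtype (fun i => b i.succ)).comp T =
          MvPolynomial.eval₂Hom ι b := by
        refine MvPolynomial.ringHom_ext ?_ ?_
        · intro a
          simp [T, ρ, E]
        · intro i
          refine Fin.cases ?_ (fun i => ?_) i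
          · simp [T, E]
          · simp [T]
      exact RingHom.congr_fun this P
    obtain ⟨u', hu', hu''⟩ := ih E.range E.range.subtype Subtype.val_injective
      (fun i => b i.succ) (T V) (by rw [hT]; exact hV)
    obtain ⟨Q, hQ⟩ := E.rangeRestrict_surjective u'
    obtain ⟨u, hu, huf⟩ := step (Ω := Ω) ι hι (b 0) Q (by
      intro h
      apply hu'
      rw [← hQ]
      exact Subtype.ext h)
    refine ⟨u, hu, fun f hf => ?_⟩
    obtain ⟨ξ0, h1, h2⟩ := huf f hf
    let f' : E.range →+* Ω := RingHom.liftOfSurjective E.rangeRestrict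
      E.rangeRestrict_surjective ⟨Polynomial.eval₂RingHom f ξ0, by
        intro P hP
        rw [RingHom.mem_ker] at hP ⊢
        exact h1 P (congrArg Subtype.val hP)⟩
    have hf' : ∀ P : Polynomial A, f' (E.rangeRestrict P) = P.eval₂ f ξ0 := by
      intro P
      exact RingHom.liftOfRightInverse_comp_apply _ _ _ _ P
    obtain ⟨ξ', h3, h4⟩ := hu'' f' (by rw [← hQ, hf']; exact h2)
    have hT' : ∀ P, (T P).eval₂ f' ξ' = P.eval₂ f (Fin.cons ξ0 ξ' : Fin (n + 1) → Ω) := by
      intro P
      have : (MvPolynomial.eval₂Hom f' ξ').comp T =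
          MvPolynomial.eval₂Hom f (Fin.cons ξ0 ξ' : Fin (n + 1) → Ω) := by
        refine MvPolynomial.ringHom_ext ?_ ?_
        · intro a
          simp [T, ρ, hf']
        · intro i
          refine Fin.cases ?_ (fun i => ?_) i
          · simp [T, hf']
          · simp [T]
      exact RingHom.congr_fun this P
    refine ⟨Fin.cons ξ0 ξ', fun P hP => ?_, ?_⟩
    · rw [← hT']
      exact h3 _ (by rw [hT, hP])
    · rw [← hT']
      exact h4

end FLFibre

variable {K : Type} [Field K] {N : ℕ}

/-- Let `q` be a prime ideal modulo which the coordinate `X i` is transcendental over the ring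
generated by the `F l`. Then through every point of the zero set of `q` outside of some proper
closed subset there are infinitely many points with the same image under `F`. -/
theorem fl_fibre {Ω : Type} [Field Ω] [Algebra K Ω] [IsAlgClosed Ω]
    (F : Fin N → MvPolynomial (Fin N) K) (q : Ideal (MvPolynomial (Fin N) K)) (hq : q.IsPrime)
    (i : Fin N)
    (htr : ∀ (r : ℕ) (a : ℕ → MvPolynomial (Fin N) K),
      ∑ j ∈ Finset.range (r + 1), bind₁ F (a j) * X i ^ j ∈ q → bind₁ F (a r) ∈ q) :
    ∃ s, s ∉ q ∧ ∀ x : Fin N → Ω, (∀ p ∈ q, aeval x p = 0) → aeval x s ≠ 0 →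
      {x' : Fin N → Ω | ∀ l, aeval x' (F l) = aeval x (F l)}.Infinite := by
  classical
  let B := MvPolynomial (Fin N) K ⧸ q
  let L := FractionRing B
  let π : MvPolynomial (Fin N) K →+* L := (algebraMap B L).comp (Ideal.Quotient.mk q)
  have hπ : ∀ p, π p = 0 ↔ p ∈ q := by
    intro p
    rw [RingHom.comp_apply, map_eq_zero_iff _ (IsFractionRing.injective B L),
      Ideal.Quotient.eq_zero_iff_mem]
  let ψ : MvPolynomial (Fin N) K →+* L := π.comp (bind₁ F : _ →ₐ[K] _).toRingHom
  have hψ : ∀ p, ψ p = π (bind₁ F p) := fun p => rfl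
  let ι : Polynomial ψ.range →+* L := Polynomial.eval₂RingHom ψ.range.subtype (π (X i))
  have hι : Function.Injective ι := by
    rw [injective_iff_map_eq_zero]
    intro P hP
    by_contra hP0
    have h1 : ∀ j, ∃ a : MvPolynomial (Fin N) K, ψ.rangeRestrict a = P.coeff j := fun j =>
      ψ.rangeRestrict_surjective _
    choose a ha using h1
    have h2 : ∑ j ∈ Finset.range (P.natDegree + 1), bind₁ F (a j) * X i ^ j ∈ q := by
      rw [← hπ, map_sum]
      have h3 : ι P = ∑ j ∈ Finset.range (P.natDegree + 1),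
          (P.coeff j : L) * π (X i) ^ j := by
        change Polynomial.eval₂ _ _ P = _
        rw [Polynomial.eval₂_eq_sum_range]
        rfl
      rw [← hP, h3]
      refine Finset.sum_congr rfl fun j _ => ?_
      rw [map_mul, map_pow, ← hψ, ← ha]
      rfl
    have h4 := htr _ _ h2
    rw [← hπ, ← hψ] at h4
    have h5 : P.coeff P.natDegree = 0 := by
      rw [← ha]
      exact Subtype.ext h4
    exact hP0 (Polynomial.leadingCoeff_eq_zero.1 h5)
  obtain ⟨u, hu, huf⟩ := FLFibre.ext (Ω := Ω) N (Polynomial ψ.range) ι hι (fun l => π (X l)) 1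
    (by simp)
  obtain ⟨g, hg⟩ := ψ.rangeRestrict_surjective u.leadingCoeff
  refine ⟨bind₁ F g, fun h => hu ?_, fun x hx hs => ?_⟩
  · rw [← Polynomial.leadingCoeff_eq_zero, ← hg]
    refine Subtype.ext ?_
    exact (hπ _).2 h
  let φ : ψ.range →+* Ω := RingHom.liftOfSurjective ψ.rangeRestrict
      ψ.rangeRestrict_surjective ⟨((aeval x).comp (bind₁ F) : _ →ₐ[K] Ω).toRingHom, by
        intro P hP
        rw [RingHom.mem_ker] at hP ⊢
        exact hx _ ((hπ _).1 (congrArg Subtype.val hP))⟩
  have hφ : ∀ P, φ (ψ.rangeRestrict P) = aeval x (bind₁ F P) := fun P =>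
    RingHom.liftOfRightInverse_comp_apply _ _ _ _ P
  have hne : u.map φ ≠ 0 := by
    intro h
    have h1 := congrArg (fun p => Polynomial.coeff p u.natDegree) h
    simp only [Polynomial.coeff_map, Polynomial.coeff_natDegree, Polynomial.coeff_zero] at h1
    rw [← hg, hφ] at h1
    exact hs h1
  have hpt : ∀ t : Ω, (u.map φ).eval t ≠ 0 → ∃ x' : Fin N → Ω,
      (∀ l, aeval x' (F l) = aeval x (F l)) ∧ x' i = t := by
    intro t ht
    obtain ⟨ξ, h1, -⟩ := huf (Polynomial.eval₂RingHom φ t) (by
      rw [Polynomial.coe_eval₂RingHom, Polynomial.eval₂_eq_eval_map]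
      exact ht)
    refine ⟨ξ, fun l => ?_, ?_⟩
    · let κ : K →+* Polynomial ψ.range := Polynomial.C.comp (ψ.rangeRestrict.comp C)
      have h2 := h1 (MvPolynomial.map κ (F l) - C (Polynomial.C (ψ.rangeRestrict (X l)))) (by
        rw [MvPolynomial.eval₂_sub, MvPolynomial.eval₂_map, MvPolynomial.eval₂_C]
        have h3 : ι (Polynomial.C (ψ.rangeRestrict (X l))) = π (F l) := by
          change Polynomial.eval₂ _ _ (Polynomial.C _) = _
          rw [Polynomial.eval₂_C]
          change π (bind₁ F (X l)) = _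
          rw [bind₁_X_right]
        have h4 : MvPolynomial.eval₂Hom (ι.comp κ) (fun l => π (X l)) = π := by
          refine MvPolynomial.ringHom_ext ?_ ?_
          · intro a
            rw [MvPolynomial.coe_eval₂Hom, MvPolynomial.eval₂_C]
            change Polynomial.eval₂ _ _ (Polynomial.C _) = _
            rw [Polynomial.eval₂_C]
            change π (bind₁ F (C a)) = _
            rw [bind₁_C_right]
          · intro j
            simp
        have h5 : MvPolynomial.eval₂ (ι.comp κ) (fun l => π (X l)) (F l) = π (F l) :=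
          RingHom.congr_fun h4 _
        rw [h3, h5, sub_self])
      rw [MvPolynomial.eval₂_sub, MvPolynomial.eval₂_map, MvPolynomial.eval₂_C, sub_eq_zero] at h2
      have h3 : Polynomial.eval₂RingHom φ t (Polynomial.C (ψ.rangeRestrict (X l))) =
          aeval x (F l) := by
        rw [Polynomial.coe_eval₂RingHom, Polynomial.eval₂_C, hφ, bind₁_X_right]
      have h4 : (Polynomial.eval₂RingHom φ t).comp κ = algebraMap K Ω := by
        ext a
        change Polynomial.eval₂ _ _ (Polynomial.C _) = _
        rw [Polynomial.eval₂_C]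
        change φ (ψ.rangeRestrict (C a)) = _
        rw [hφ, bind₁_C_right, aeval_C]
      rw [h3, h4] at h2
      exact h2
    · have h2 := h1 (X i - C Polynomial.X) (by
        rw [MvPolynomial.eval₂_sub, MvPolynomial.eval₂_X, MvPolynomial.eval₂_C]
        change _ - Polynomial.eval₂ _ _ Polynomial.X = _
        rw [Polynomial.eval₂_X, sub_self])
      rw [MvPolynomial.eval₂_sub, MvPolynomial.eval₂_X, MvPolynomial.eval₂_C, sub_eq_zero,
        Polynomial.coe_eval₂RingHom, Polynomial.eval₂_X] at h2
      exact h2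
  intro hfin
  have h1 : ((fun x' : Fin N → Ω => x' i) ''
      {x' : Fin N → Ω | ∀ l, aeval x' (F l) = aeval x (F l)}).Finite := hfin.image _
  have h2 : {t : Ω | (u.map φ).eval t = 0}.Finite := by
    refine (Polynomial.finite_setOfPred_isRoot hne).subset fun t ht => ht
  have h3 : (Set.univ : Set Ω).Finite := by
    refine (h1.union h2).subset fun t _ => ?_
    by_cases ht : (u.map φ).eval t = 0
    · exact Or.inr ht
    · obtain ⟨x', hx', hx''⟩ := hpt t ht
      exact Or.inl ⟨x', hx', hx''⟩
  exact Set.infinite_univ h3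

/-- In the plane a curve with this property is contracted to a point. -/
theorem fl_plane (F : Fin 2 → MvPolynomial (Fin 2) K) (q : Ideal (MvPolynomial (Fin 2) K))
    (hq : q.IsPrime) (hq0 : q ≠ ⊥) (i : Fin 2)
    (htr : ∀ (r : ℕ) (a : ℕ → MvPolynomial (Fin 2) K),
      ∑ j ∈ Finset.range (r + 1), bind₁ F (a j) * X i ^ j ∈ q → bind₁ F (a r) ∈ q)
    (x x' : Fin 2 → K) (hx : ∀ p ∈ q, eval x p = 0) (hx' : ∀ p ∈ q, eval x' p = 0) (l : Fin 2) :
    eval x (F l) = eval x' (F l) := by
  classical
  let mk : MvPolynomial (Fin 2) K →ₐ[K] MvPolynomial (Fin 2) K ⧸ q := Ideal.Quotient.mkₐ K q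
  have hmk : ∀ p, mk p = 0 ↔ p ∈ q := fun p => Ideal.Quotient.eq_zero_iff_mem
  have halg : IsAlgebraic K (mk (F l)) := by
    by_contra htr1
    let y : Unit → MvPolynomial (Fin 2) K ⧸ q := fun _ => mk (F l)
    have hy : AlgebraicIndependent K y := algebraicIndependent_unique_type_iff.2 htr1
    have hle : Algebra.adjoin K (Set.range y) ≤ (mk.comp (bind₁ F)).range := by
      rw [Algebra.adjoin_le_iff]
      rintro _ ⟨_, rfl⟩
      exact ⟨X l, by simp [y]⟩
    have htr2 : Transcendental (Algebra.adjoin K (Set.range y)) (mk (X i)) := by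
      rintro ⟨P, hP0, hP⟩
      have h1 : ∀ j, ∃ a : MvPolynomial (Fin 2) K, mk (bind₁ F a) = P.coeff j := fun j =>
        hle (P.coeff j).2
      choose a ha using h1
      have h2 : ∑ j ∈ Finset.range (P.natDegree + 1), bind₁ F (a j) * X i ^ j ∈ q := by
        rw [← hmk, map_sum, ← hP, Polynomial.aeval_eq_sum_range]
        refine Finset.sum_congr rfl fun j _ => ?_
        rw [map_mul, map_pow, ha]
        rfl
      have h4 := htr _ _ h2
      rw [← hmk, ha] at h4
      exact hP0 (Polynomial.leadingCoeff_eq_zero.1 (Subtype.ext h4))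
    have h2 := ((hy.option_iff_transcendental (mk (X i))).2 htr2).cardinalMk_le_trdeg
    have hfs : @FaithfulSMul K (MvPolynomial (Fin 2) K ⧸ q) Algebra.toSMul :=
      (faithfulSMul_iff_algebraMap_injective _ _).2 (algebraMap K _).injective
    have htop : Algebra.adjoin K (Set.range fun j : Fin 2 => mk (X j)) = ⊤ := by
      rw [show (Set.range fun j : Fin 2 => mk (X j)) =
        mk '' (Set.range (X : Fin 2 → MvPolynomial (Fin 2) K)) from (Set.range_comp _ _),
        ← AlgHom.map_adjoin, adjoin_range_X, Algebra.map_top]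
      exact AlgHom.range_eq_top _ |>.2 (Ideal.Quotient.mkₐ_surjective K q)
    have hia : Algebra.IsAlgebraic (Algebra.adjoin K (Set.range fun j : Fin 2 => mk (X j)))
        (MvPolynomial (Fin 2) K ⧸ q) := by
      constructor
      intro b
      have hb : b ∈ Algebra.adjoin K (Set.range fun j : Fin 2 => mk (X j)) := by
        rw [htop]
        trivial
      exact isAlgebraic_algebraMap
        (⟨b, hb⟩ : Algebra.adjoin K (Set.range fun j : Fin 2 => mk (X j)))
    have h3 := Algebra.IsAlgebraic.isTranscendenceBasis_of_le_trdeg_of_finite K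
      (fun j : Fin 2 => mk (X j)) (by
        refine le_trans (le_of_eq ?_) h2
        simp)
    apply hq0
    rw [eq_bot_iff]
    intro p hp
    have h4 : aeval (fun j : Fin 2 => mk (X j)) p = 0 := by
      have h5 : (aeval (fun j : Fin 2 => mk (X j)) : _ →ₐ[K] _) = mk := by
        ext j
        simp
      rw [h5]
      exact (hmk p).2 hp
    have h5 := h3.1
    rw [AlgebraicIndependent, injective_iff_map_eq_zero] at h5
    exact h5 p h4
  have hint := halg.isIntegral
  have hirr := minpoly.irreducible hint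
  have hroot : ∀ z : Fin 2 → K, (∀ p ∈ q, eval z p = 0) →
      (minpoly K (mk (F l))).eval (eval z (F l)) = 0 := by
    intro z hz
    have h1 : Polynomial.aeval (F l) (minpoly K (mk (F l))) ∈ q := by
      rw [← hmk, ← Polynomial.aeval_algHom_apply, minpoly.aeval]
    have h2 := hz _ h1
    have h3 : eval z (Polynomial.aeval (F l) (minpoly K (mk (F l)))) =
        Polynomial.aeval (aeval z (F l)) (minpoly K (mk (F l))) := by
      rw [Polynomial.aeval_algHom_apply]
      rfl
    rw [h3] at h2
    exact h2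
  have hdeg := Polynomial.degree_eq_one_of_irreducible_of_root hirr (hroot x hx)
  have h1 := hroot x hx
  have h2 := hroot x' hx'
  rw [Polynomial.eq_X_add_C_of_degree_eq_one hdeg] at h1 h2
  have hlc : (minpoly K (mk (F l))).leadingCoeff = 1 := minpoly.monic hint
  simp only [hlc, Polynomial.C_1, one_mul, Polynomial.eval_add, Polynomial.eval_X,
    Polynomial.eval_C] at h1 h2
  exact add_right_cancel (h1.trans h2.symm)

/-- If `F` is dominant then the coordinates are algebraic over the ring generated by `F`. -/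
theorem fl_dominant (F : Fin N → MvPolynomial (Fin N) K)
    (hF : ∀ p : MvPolynomial (Fin N) K, bind₁ F p = 0 → p = 0) (i : Fin N) :
    ∃ (r : ℕ) (a : ℕ → MvPolynomial (Fin N) K),
      ∑ j ∈ Finset.range (r + 1), bind₁ F (a j) * X i ^ j = 0 ∧ a r ≠ 0 := by
  classical
  have hind : AlgebraicIndependent K F := by
    rw [AlgebraicIndependent, injective_iff_map_eq_zero]
    exact hF
  have hb := hind.isTranscendenceBasis_of_lift_trdeg_le_of_finite (by simp)
  obtain ⟨P, hP0, hP⟩ := hb.isAlgebraic.isAlgebraic (X i : MvPolynomial (Fin N) K)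
  have h1 : ∀ j, ∃ a : MvPolynomial (Fin N) K, bind₁ F a = P.coeff j := by
    intro j
    exact (Algebra.adjoin_range_eq_range_aeval K F).le (P.coeff j).2
  choose a ha using h1
  refine ⟨P.natDegree, a, ?_, fun h => hP0 ?_⟩
  · rw [← hP, Polynomial.aeval_eq_sum_range]
    refine Finset.sum_congr rfl fun j _ => ?_
    rw [ha]
    rfl
  · have h2 := ha P.natDegree
    rw [h, map_zero] at h2
    exact Polynomial.leadingCoeff_eq_zero.1 (Subtype.ext h2.symm)

end Pool.Agent.Lib.MP_9ec2c5_bp
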