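import Mathlib
import Pool.Agent.Lib.MP_9ec2c5_bp.Defs

/-!
Returns of a dense orbit to a proper closed subset have uniform density zero.
-/

set_option autoImplicit false

namespace Pool.Agent.Lib.MP_9ec2c5_bp

open MvPolynomial
open Pool.Agent.Lib.MP_9ec2c5_gen (iter)

section
variable {R : Type} [CommRing R] {k : Type} [Field k]

/-- small density of the returns -/
private def Ret_P (ev : ℕ → R →+* k) (I : Ideal R) : Prop :=
  ∀ δ : ℝ, 0 < δ → ∃ W0 : ℕ, ∀ W, W0 ≤ W → ∀ s : ℕ, ∀ A : Finset ℕ, A ⊆ Finset.Ico s (s + W) →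
      (∀ n ∈ A, ∀ r ∈ I, ev n r = 0) → (A.card : ℝ) ≤ δ * W

private lemma Ret_top (ev : ℕ → R →+* k) : Ret_P ev (⊤ : Ideal R) := by
  intro δ hδ
  refine ⟨0, fun W _ s A _ h => ?_⟩
  have hA : A = ∅ := by
    refine Finset.eq_empty_of_forall_notMem fun n hn => ?_
    have h1 := h n hn 1 Submodule.mem_top
    rw [map_one] at h1
    exact one_ne_zero h1
  rw [hA]
  simp only [Finset.card_empty, Nat.cast_zero]
  positivity

private lemma Ret_sup {ev : ℕ → R →+* k} {n : ℕ} {I J : Ideal R} (h1 : ∀ r ∈ I, ev n r = 0)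
    (h2 : ∀ r ∈ J, ev n r = 0) : ∀ r ∈ I ⊔ J, ev n r = 0 := by
  intro r hr
  have h3 : I ⊔ J ≤ RingHom.ker (ev n) :=
    sup_le (fun x hx => (RingHom.mem_ker).2 (h1 x hx)) fun x hx => (RingHom.mem_ker).2 (h2 x hx)
  exact (RingHom.mem_ker).1 (h3 hr)

private lemma Ret_not_prime {ev : ℕ → R →+* k} {I : Ideal R}
    (ih : ∀ J, I < J → Ret_P ev J) (hI : I ≠ ⊤) (hp : ¬ I.IsPrime) : Ret_P ev I := by
  classical
  rw [Ideal.isPrime_iff] at hp
  push Not at hp
  obtain ⟨a, b, hab, ha, hb⟩ := hp hI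
  have hlt : ∀ c, c ∉ I → I < I ⊔ Ideal.span {c} := by
    intro c hc
    refine lt_of_le_of_ne le_sup_left fun h => hc ?_
    rw [h]
    exact Ideal.mem_sup_right (Ideal.mem_span_singleton_self c)
  intro δ hδ
  obtain ⟨W1, h1⟩ := ih _ (hlt a ha) (δ / 2) (by positivity)
  obtain ⟨W2, h2⟩ := ih _ (hlt b hb) (δ / 2) (by positivity)
  refine ⟨max W1 W2, fun W hW s A hA h => ?_⟩
  have h3 := h1 W ((le_max_left _ _).trans hW) s (A.filter fun n => ev n a = 0)
    ((Finset.filter_subset _ _).trans hA) (by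
      intro n hn
      rw [Finset.mem_filter] at hn
      refine Ret_sup (h n hn.1) fun r hr => ?_
      obtain ⟨c, rfl⟩ := Ideal.mem_span_singleton.1 hr
      rw [map_mul, hn.2, zero_mul])
  have h4 := h2 W ((le_max_right _ _).trans hW) s (A.filter fun n => ev n b = 0)
    ((Finset.filter_subset _ _).trans hA) (by
      intro n hn
      rw [Finset.mem_filter] at hn
      refine Ret_sup (h n hn.1) fun r hr => ?_
      obtain ⟨c, rfl⟩ := Ideal.mem_span_singleton.1 hr
      rw [map_mul, hn.2, zero_mul])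
  have h5 : A ⊆ (A.filter fun n => ev n a = 0) ∪ (A.filter fun n => ev n b = 0) := by
    intro n hn
    have h6 := h n hn _ hab
    rw [map_mul, mul_eq_zero] at h6
    rw [Finset.mem_union, Finset.mem_filter, Finset.mem_filter]
    tauto
  have h7 : (A.card : ℝ) ≤ ((A.filter fun n => ev n a = 0).card : ℝ) +
      (A.filter fun n => ev n b = 0).card := by
    exact_mod_cast (Finset.card_le_card h5).trans (Finset.card_union_le _ _)
  linarith

private lemma Ret_iter {φ : R →+* R} {ev : ℕ → R →+* k} (hev : ∀ n r, ev (n + 1) r = ev n (φ r))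
    (j : ℕ) : ∀ n r, ev (n + j) r = ev n (φ^[j] r) := by
  induction j with
  | zero => intro n r; rfl
  | succ j ih =>
    intro n r
    rw [← add_assoc, hev, ih, Function.iterate_succ_apply]

private lemma Ret_gap {W s k0 : ℕ} {B : Finset ℕ} (hB : B ⊆ Finset.Ico s (s + W))
    (hg : ∀ m ∈ B, ∀ n ∈ B, m < n → k0 < n - m) : B.card ≤ W / (k0 + 1) + 1 := by
  rw [← Finset.card_range (W / (k0 + 1) + 1)]
  refine Finset.card_le_card_of_injOn (fun n => (n - s) / (k0 + 1)) ?_ ?_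
  · intro n hn
    have h1 := Finset.mem_Ico.1 (hB hn)
    simp only [Finset.coe_range, Set.mem_Iio]
    exact Nat.lt_succ_of_le (Nat.div_le_div_right (by omega))
  · have key : ∀ m ∈ B, ∀ n ∈ B, (m - s) / (k0 + 1) = (n - s) / (k0 + 1) → ¬ m < n := by
      intro m hm n hn h hlt
      have h1 := hg m hm n hn hlt
      have h2 := (Finset.mem_Ico.1 (hB hm)).1
      have h3 : m - s + (k0 + 1) ≤ n - s := by omega
      have h4 := Nat.div_le_div_right (c := k0 + 1) h3
      rw [Nat.add_div_right _ (Nat.succ_pos k0), ← h] at h4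
      exact absurd h4 (Nat.not_succ_le_self _)
    intro m hm n hn h
    have h1 := key m hm n hn h
    have h2 := key n hn m hm h.symm
    omega

variable [IsDomain R]

private lemma Ret_invariant {φ : R →+* R} {ev : ℕ → R →+* k}
    (hev : ∀ n r, ev (n + 1) r = ev n (φ r))
    (htail : ∀ r, (∃ n0, ∀ n, n0 ≤ n → ev n r = 0) → r = 0) {I : Ideal R} (hI : I ≠ ⊥)
    {j : ℕ} (hj : 1 ≤ j) (hφ : ∀ r ∈ I, φ^[j] r ∈ I) {n : ℕ} (hn : ∀ r ∈ I, ev n r = 0) :
    False := by
  have hinj : ∀ r, φ r = 0 → r = 0 := by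
    intro r hr
    refine htail r ⟨1, fun m hm => ?_⟩
    obtain ⟨m, rfl⟩ := Nat.exists_eq_add_of_le' hm
    rw [hev, hr, map_zero]
  have hinj' : ∀ i r, φ^[i] r = 0 → r = 0 := by
    intro i
    induction i with
    | zero => intro r hr; exact hr
    | succ i ih =>
      intro r hr
      rw [Function.iterate_succ_apply] at hr
      exact hinj r (ih _ hr)
  have hret : ∀ t : ℕ, ∀ r ∈ I, ev (n + j * t) r = 0 := by
    intro t
    induction t with
    | zero => simpa using hn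
    | succ t ih =>
      intro r hr
      rw [Nat.mul_succ, ← add_assoc, Ret_iter hev]
      exact ih _ (hφ r hr)
  obtain ⟨p, hp, hp0⟩ := Submodule.exists_mem_ne_zero_of_ne_bot hI
  have hQ : ∏ i ∈ Finset.range j, φ^[i] p = 0 := by
    refine htail _ ⟨n, fun m hm => ?_⟩
    rw [map_prod]
    -- choose i with m + i = n + j * t
    let i := (j - (m - n) % j) % j
    have hi : i < j := Nat.mod_lt _ (by omega)
    have h1 : ∃ t, m + i = n + j * t := by
      have h2 : (m - n + i) % j = 0 := by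
        change (m - n + (j - (m - n) % j) % j) % j = 0
        rw [Nat.add_mod, Nat.mod_mod]
        have h3 : (m - n) % j < j := Nat.mod_lt _ (by omega)
        rcases Nat.eq_zero_or_pos ((m - n) % j) with h4 | h4
        · rw [h4]; simp
        · rw [Nat.mod_eq_of_lt (a := j - (m - n) % j) (by omega)]
          rw [show (m - n) % j + (j - (m - n) % j) = j by omega, Nat.mod_self]
      obtain ⟨t, ht⟩ := Nat.dvd_of_mod_eq_zero h2
      exact ⟨t, by omega⟩
    obtain ⟨t, ht⟩ := h1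
    refine Finset.prod_eq_zero (Finset.mem_range.2 hi) ?_
    rw [← Ret_iter hev, ht]
    exact hret t p hp
  rw [Finset.prod_eq_zero_iff] at hQ
  obtain ⟨i, -, hi⟩ := hQ
  exact hp0 (hinj' i p hi)

private lemma Ret_prime {φ : R →+* R} {ev : ℕ → R →+* k}
    (hev : ∀ n r, ev (n + 1) r = ev n (φ r))
    (htail : ∀ r, (∃ n0, ∀ n, n0 ≤ n → ev n r = 0) → r = 0) {I : Ideal R} (hI : I ≠ ⊥)
    (ih : ∀ J, I < J → Ret_P ev J) : Ret_P ev I := by
  classical
  by_cases hinv : ∃ j, 1 ≤ j ∧ ∀ r ∈ I, φ^[j] r ∈ I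
  · obtain ⟨j, hj, hφ⟩ := hinv
    intro δ hδ
    refine ⟨0, fun W _ s A _ h => ?_⟩
    have hA : A = ∅ := by
      refine Finset.eq_empty_of_forall_notMem fun n hn => ?_
      exact Ret_invariant hev htail hI hj hφ (h n hn)
    rw [hA]
    simp only [Finset.card_empty, Nat.cast_zero]
    positivity
  · push Not at hinv
    intro δ hδ
    obtain ⟨k0, hk0⟩ := exists_nat_gt (2 / δ)
    have hk0' : 0 < (k0 : ℝ) := lt_trans (by positivity) hk0
    -- the ideals
    have hJ : ∀ j, 1 ≤ j → ∃ J, I < J ∧ ∀ n, (∀ r ∈ I, ev n r = 0) → (∀ r ∈ I, ev (n + j) r = 0) →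
        ∀ r ∈ J, ev n r = 0 := by
      intro j hj
      obtain ⟨r0, hr0, hr1⟩ := hinv j hj
      refine ⟨I ⊔ Ideal.span {φ^[j] r0}, lt_of_le_of_ne le_sup_left fun h => hr1 ?_,
        fun n h1 h2 => Ret_sup h1 fun r hr => ?_⟩
      · rw [h]
        exact Ideal.mem_sup_right (Ideal.mem_span_singleton_self _)
      · obtain ⟨c, rfl⟩ := Ideal.mem_span_singleton.1 hr
        rw [map_mul, ← Ret_iter hev, h2 r0 hr0, zero_mul]
    have hW : ∀ j, ∃ W0 : ℕ, 1 ≤ j → ∀ W, W0 ≤ W → ∀ s : ℕ, ∀ A : Finset ℕ,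
        A ⊆ Finset.Ico s (s + W) → (∀ n ∈ A, (∀ r ∈ I, ev n r = 0) ∧ ∀ r ∈ I, ev (n + j) r = 0) →
        (A.card : ℝ) ≤ δ / (4 * k0) * W := by
      intro j
      by_cases hj : 1 ≤ j
      · obtain ⟨J, hJ1, hJ2⟩ := hJ j hj
        obtain ⟨W0, hW0⟩ := ih J hJ1 (δ / (4 * k0)) (by positivity)
        exact ⟨W0, fun _ W hW s A hA h => hW0 W hW s A hA fun n hn => hJ2 n (h n hn).1 (h n hn).2⟩
      · exact ⟨0, fun h => absurd h hj⟩
    choose W0 hW0 using hW
    obtain ⟨W1, hW1⟩ := exists_nat_gt (4 / δ)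
    refine ⟨max W1 ((Finset.range (k0 + 1)).sup W0), fun W hW s A hA h => ?_⟩
    have hWk : ∀ j ∈ Finset.range (k0 + 1), W0 j ≤ W := fun j hj =>
      (Finset.le_sup hj).trans ((le_max_right _ _).trans hW)
    let Aj : ℕ → Finset ℕ := fun j => A.filter fun n => n + j ∈ A
    let B : Finset ℕ := A.filter fun n => ∀ j ∈ Finset.Icc 1 k0, n + j ∉ A
    have hAj : ∀ j ∈ Finset.Icc 1 k0, ((Aj j).card : ℝ) ≤ δ / (4 * k0) * W := by
      intro j hj
      rw [Finset.mem_Icc] at hj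
      refine hW0 j hj.1 W (hWk j (Finset.mem_range.2 (by omega))) s _
        ((Finset.filter_subset _ _).trans hA) fun n hn => ?_
      rw [Finset.mem_filter] at hn
      exact ⟨h n hn.1, h _ hn.2⟩
    have hB : B.card ≤ W / (k0 + 1) + 1 := by
      refine Ret_gap ((Finset.filter_subset _ _).trans hA) ?_
      intro m hm n hn hmn
      by_contra hle
      have h1 := (Finset.mem_filter.1 hm).2 (n - m) (Finset.mem_Icc.2 (by omega))
      rw [show m + (n - m) = n by omega] at h1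
      exact h1 (Finset.mem_filter.1 hn).1
    have hsub : A ⊆ B ∪ (Finset.Icc 1 k0).biUnion Aj := by
      intro n hn
      by_cases h1 : ∀ j ∈ Finset.Icc 1 k0, n + j ∉ A
      · exact Finset.mem_union_left _ (Finset.mem_filter.2 ⟨hn, h1⟩)
      · push Not at h1
        obtain ⟨j, hj, hj'⟩ := h1
        exact Finset.mem_union_right _
          (Finset.mem_biUnion.2 ⟨j, hj, Finset.mem_filter.2 ⟨hn, hj'⟩⟩)
    have h1 : (A.card : ℝ) ≤ B.card + ∑ j ∈ Finset.Icc 1 k0, ((Aj j).card : ℝ) := by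
      have h2 := (Finset.card_le_card hsub).trans (Finset.card_union_le _ _)
      have h3 : ((Finset.Icc 1 k0).biUnion Aj).card ≤ ∑ j ∈ Finset.Icc 1 k0, (Aj j).card :=
        Finset.card_biUnion_le
      exact_mod_cast h2.trans (Nat.add_le_add_left h3 _)
    have h2 : ∑ j ∈ Finset.Icc 1 k0, ((Aj j).card : ℝ) ≤ δ / 4 * W := by
      refine (Finset.sum_le_card_nsmul _ _ _ hAj).trans (le_of_eq ?_)
      rw [Nat.card_Icc, nsmul_eq_mul]
      simp only [Nat.add_sub_cancel]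
      field_simp
    have h3 : (B.card : ℝ) ≤ δ / 2 * W + 1 := by
      have h4 : (B.card : ℝ) ≤ ((W / (k0 + 1) : ℕ) : ℝ) + 1 := by exact_mod_cast hB
      have h5 : ((W / (k0 + 1) : ℕ) : ℝ) ≤ (W : ℝ) / ((k0 + 1 : ℕ) : ℝ) := Nat.cast_div_le
      have h6 : (W : ℝ) / ((k0 + 1 : ℕ) : ℝ) ≤ δ / 2 * W := by
        rw [div_le_iff₀ (by positivity)]
        have h7 : 2 / δ < ((k0 + 1 : ℕ) : ℝ) := by push_cast; linarith
        rw [div_lt_iff₀ hδ] at h7
        have h8 : (0 : ℝ) ≤ W := Nat.cast_nonneg _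
        nlinarith
      linarith
    have h4 : (1 : ℝ) ≤ δ / 4 * W := by
      have h5 : (W1 : ℝ) ≤ W := by exact_mod_cast (le_max_left _ _).trans hW
      have h6 : 4 / δ < W := lt_of_lt_of_le hW1 h5
      rw [div_lt_iff₀ hδ] at h6
      linarith
    linarith

end

theorem ret_ideal {R : Type} [CommRing R] [IsDomain R] [IsNoetherianRing R] {k : Type} [Field k]
    (φ : R →+* R) (ev : ℕ → R →+* k) (hev : ∀ n r, ev (n + 1) r = ev n (φ r))
    (htail : ∀ r, (∃ n0, ∀ n, n0 ≤ n → ev n r = 0) → r = 0) (I : Ideal R) (hI : I ≠ ⊥) (δ : ℝ)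
    (hδ : 0 < δ) : ∃ W0 : ℕ, ∀ W, W0 ≤ W → ∀ s : ℕ, ∀ A : Finset ℕ, A ⊆ Finset.Ico s (s + W) →
      (∀ n ∈ A, ∀ r ∈ I, ev n r = 0) → (A.card : ℝ) ≤ δ * W := by
  have key : ∀ J : Ideal R, J ≠ ⊥ → Ret_P ev J := by
    intro J
    induction J using WellFoundedGT.induction with
    | ind J ih =>
      intro hJ
      have ih' : ∀ J', J < J' → Ret_P ev J' := fun J' h => ih J' h (ne_bot_of_gt h)
      by_cases h1 : J = ⊤
      · rw [h1]; exact Ret_top ev
      · by_cases h2 : J.IsPrime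
        · exact Ret_prime hev htail hJ ih'
        · exact Ret_not_prime ih' h1 h2
  exact key I hI δ hδ

/-- tails of dense orbits are dense -/
theorem dense_tail {K : Type} [Field K] {N : ℕ} (F : Fin N → MvPolynomial (Fin N) K)
    (P : ℕ → Fin N → K) (hP : ∀ n i, P (n + 1) i = eval (P n) (F i))
    (hdense : ∀ R : MvPolynomial (Fin N) K, (∀ n, eval (P n) R = 0) → R = 0)
    (R : MvPolynomial (Fin N) K) (n0 : ℕ) (hR : ∀ n, n0 ≤ n → eval (P n) R = 0) : R = 0 := by
  cases N with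
  | zero =>
    refine hdense R fun n => ?_
    rw [Subsingleton.elim (P n) (P n0)]
    exact hR n0 le_rfl
  | succ N =>
    have h1 : R * ∏ n ∈ Finset.range n0, (X 0 - C (P n 0)) = 0 := by
      refine hdense _ fun n => ?_
      rw [map_mul]
      by_cases hn : n0 ≤ n
      · rw [hR n hn, zero_mul]
      · rw [map_prod, Finset.prod_eq_zero (Finset.mem_range.2 (not_le.1 hn)), mul_zero]
        simp
    rcases mul_eq_zero.1 h1 with h2 | h2
    · exact h2
    · rw [Finset.prod_eq_zero_iff] at h2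
      obtain ⟨n, -, hn⟩ := h2
      exfalso
      have h3 := congrArg (eval fun _ => P n 0 + 1) hn
      simp at h3

theorem ret_poly {K : Type} [Field K] {N : ℕ} (F : Fin N → MvPolynomial (Fin N) K)
    (P : ℕ → Fin N → K) (hP : ∀ n i, P (n + 1) i = eval (P n) (F i))
    (hdense : ∀ R : MvPolynomial (Fin N) K, (∀ n, eval (P n) R = 0) → R = 0)
    (R : MvPolynomial (Fin N) K) (hR : R ≠ 0) (δ : ℝ) (hδ : 0 < δ) :
    ∃ W0 : ℕ, ∀ W, W0 ≤ W → ∀ s : ℕ, ∀ A : Finset ℕ, A ⊆ Finset.Ico s (s + W) →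
      (∀ n ∈ A, eval (P n) R = 0) → (A.card : ℝ) ≤ δ * W := by
  obtain ⟨W0, hW0⟩ := ret_ideal (bind₁ F : MvPolynomial (Fin N) K →ₐ[K] _).toRingHom
    (fun n => eval (P n)) (by
      intro n r
      change eval (P (n + 1)) r = eval (P n) (bind₁ F r)
      rw [show P (n + 1) = fun i => eval (P n) (F i) from funext (hP n)]
      change eval₂Hom (RingHom.id K) _ r = eval₂Hom (RingHom.id K) _ (bind₁ F r)
      rw [eval₂Hom_bind₁]
      rfl)
    (fun r ⟨n0, h⟩ => dense_tail F P hP hdense r n0 h) (Ideal.span {R}) (by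
      rw [Ne, Ideal.span_singleton_eq_bot]
      exact hR) δ hδ
  refine ⟨W0, fun W hW s A hA h => hW0 W hW s A hA fun n hn r hr => ?_⟩
  obtain ⟨c, rfl⟩ := Ideal.mem_span_singleton.1 hr
  rw [map_mul, h n hn, zero_mul]

end Pool.Agent.Lib.MP_9ec2c5_bp
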