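import Mathlib
import Pool.Agent.Lib.MP_9ec2c5_bp.Defs
import Pool.Agent.Lib.MP_9ec2c5_nt_h65.Places

/-!
Comparison of heights from local inequalities, and the Northcott property.
-/

set_option autoImplicit false

namespace Pool.Agent.Lib.MP_9ec2c5_bp

open MvPolynomial
open Pool.Agent.Lib.MP_9ec2c5_gen (iter)

open Filter Topology Height AdmissibleAbsValues

lemma Compare_nrm_nonneg {K : Type} [Field K] {ι : Type} (v : AbsoluteValue K ℝ) (y : ι → K) :
    0 ≤ nrm v y := Real.iSup_nonneg fun _ => v.nonneg _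

/-- almost all nonarchimedean norms of a nonzero tuple are one -/
lemma Compare_finite {K : Type} [Field K] [AdmissibleAbsValues K] {ι : Type} [Finite ι]
    {y : ι → K} (hy : y ≠ 0) :
    (Function.mulSupport fun v : nonarchAbsVal (K := K) => nrm v.val y).Finite := by
  classical
  obtain ⟨i0, hi0⟩ := Function.ne_iff.mp hy
  have hne : Nonempty ι := ⟨i0⟩
  refine Set.Finite.subset (s := ⋃ i : {i // y i ≠ 0}, Function.mulSupport
    fun v : nonarchAbsVal (K := K) => v.val (y i.1))
    (Set.finite_iUnion fun i => hasFiniteMulSupport i.2) ?_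
  intro v hv
  by_contra hcon
  apply hv
  have h1 : ∀ i, y i ≠ 0 → v.val (y i) = 1 := by
    intro i hi
    by_contra h
    exact hcon (Set.mem_iUnion.mpr ⟨⟨i, hi⟩, h⟩)
  apply le_antisymm
  · refine ciSup_le fun i => ?_
    by_cases hi : y i = 0
    · rw [hi, map_zero]
      exact zero_le_one
    · exact (h1 i hi).le
  · exact Finite.le_ciSup_of_le i0 (h1 i0 hi0).ge

/-- local inequalities at all places, with constants equal to one at almost all of them -/
theorem compare {K : Type} [Field K] [AdmissibleAbsValues K] (S : Set (nonarchAbsVal (K := K)))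
    (hS : S.Finite) (C : AbsoluteValue K ℝ → ℝ) (hC : ∀ v, 1 ≤ C v) :
    ∃ C1 : ℝ, 0 ≤ C1 ∧ ∀ (ι ι' : Type) [Finite ι] [Finite ι'] (y : ι → K) (z : ι' → K),
      y ≠ 0 → z ≠ 0 → (∀ v ∈ archAbsVal (K := K), nrm v y ≤ C v * nrm v z) →
      (∀ v : nonarchAbsVal (K := K), v ∈ S → nrm v.val y ≤ C v.val * nrm v.val z) →
      (∀ v : nonarchAbsVal (K := K), v ∉ S → nrm v.val y ≤ nrm v.val z) →
      logHeight y ≤ C1 + logHeight z := by
  classical
  have hA : (1 : ℝ) ≤ ((archAbsVal (K := K)).map C).prod :=
    Multiset.one_le_prod_map fun v _ => hC v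
  have hB : (1 : ℝ) ≤ ∏ᶠ v : nonarchAbsVal (K := K), (if v ∈ S then C v.val else 1) := by
    refine one_le_finprod fun v => ?_
    split_ifs
    · exact hC _
    · exact le_refl _
  have hSf : (Function.mulSupport fun v : nonarchAbsVal (K := K) =>
      (if v ∈ S then C v.val else 1 : ℝ)).Finite := by
    refine hS.subset ?_
    intro v hv
    by_contra hcon
    exact hv (if_neg hcon)
  refine ⟨Real.log (((archAbsVal (K := K)).map C).prod
    * ∏ᶠ v : nonarchAbsVal (K := K), (if v ∈ S then C v.val else 1)),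
    Real.log_nonneg (one_le_mul_of_one_le_of_one_le hA hB), ?_⟩
  intro ι ι' _ _ y z hy hz h1 h2 h3
  rw [logHeight_eq_log_mulHeight, logHeight_eq_log_mulHeight, ← Real.log_mul (by positivity)
    (mulHeight_ne_zero z)]
  refine Real.log_le_log (mulHeight_pos y) ?_
  rw [mulHeight_eq hy, mulHeight_eq hz, mul_mul_mul_comm]
  have e1 : ((archAbsVal (K := K)).map C).prod *
      ((archAbsVal (K := K)).map fun v => ⨆ i, v (z i)).prod
      = ((archAbsVal (K := K)).map fun v => C v * nrm v z).prod := by
    rw [Multiset.prod_map_mul]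
    rfl
  have e2 : (∏ᶠ v : nonarchAbsVal (K := K), (if v ∈ S then C v.val else 1 : ℝ)) *
      (∏ᶠ v : nonarchAbsVal (K := K), ⨆ i, v.val (z i))
      = ∏ᶠ v : nonarchAbsVal (K := K), ((if v ∈ S then C v.val else 1) * nrm v.val z) := by
    rw [finprod_mul_distrib hSf (Compare_finite hz)]
    rfl
  rw [e1, e2]
  have hzf := Compare_finite (K := K) hz
  apply mul_le_mul
  · exact Multiset.prod_map_le_prod_map₀ _ _ (fun v _ => Compare_nrm_nonneg v y) fun v hv => h1 v hv
  · refine finprod_le_finprod (Compare_finite hy) (fun v => Compare_nrm_nonneg v.val y) ?_ ?_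
    · refine (hSf.union hzf).subset ?_
      intro v hv
      by_contra hcon
      rw [Set.mem_union, not_or, Function.notMem_mulSupport, Function.notMem_mulSupport] at hcon
      apply hv
      show (if v ∈ S then C v.val else 1 : ℝ) * nrm v.val z = 1
      rw [hcon.1, hcon.2, one_mul]
    · intro v
      show nrm v.val y ≤ (if v ∈ S then C v.val else 1) * nrm v.val z
      split_ifs with h4
      · exact h2 v h4
      · rw [one_mul]
        exact h3 v h4
  · exact finprod_nonneg fun v => Compare_nrm_nonneg v.val y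
  · exact Multiset.prod_map_nonneg fun v _ =>
      mul_nonneg (zero_le_one.trans (hC v)) (Compare_nrm_nonneg v z)

/-- an injective sequence of points has heights tending to infinity -/
theorem height_tendsto {K : Type} [Field K] [NumberField K] {N : ℕ} (P : ℕ → Fin N → K)
    (hinj : Function.Injective P) :
    Tendsto (fun n => logHeight (Fin.cons 1 (P n) : Fin (N + 1) → K)) atTop atTop := by
  rw [tendsto_atTop]
  intro B
  have h1 : {n | logHeight (Fin.cons 1 (P n) : Fin (N + 1) → K) ≤ B}.Finite := by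
    refine Set.Finite.of_finite_image (((Set.Finite.pi' (fun _ : Fin N =>
      NumberField.finite_setOfPred_mulHeight₁_le K (Real.exp B)))).subset ?_) hinj.injOn
    rintro _ ⟨n, hn, rfl⟩
    intro i
    show mulHeight₁ (P n i) ≤ Real.exp B
    have h2 : mulHeight₁ (P n i) ≤ mulHeight (Fin.cons 1 (P n) : Fin (N + 1) → K) := by
      rw [mulHeight₁_eq_mulHeight]
      have h3 : (![P n i, 1] : Fin 2 → K)
          = (Fin.cons 1 (P n) : Fin (N + 1) → K) ∘ ![i.succ, 0] := by
        ext j
        fin_cases j <;> simp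
      rw [h3]
      exact mulHeight_comp_le _ _
    refine h2.trans ?_
    rw [← Real.log_le_iff_le_exp (mulHeight_pos _)]
    exact hn
  have h2 : ∀ᶠ n in cofinite, ¬ (logHeight (Fin.cons 1 (P n) : Fin (N + 1) → K) ≤ B) :=
    h1.eventually_cofinite_notMem
  rw [Nat.cofinite_eq_atTop] at h2
  filter_upwards [h2] with n hn
  exact (not_le.mp hn).le

end Pool.Agent.Lib.MP_9ec2c5_bp
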