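import Mathlib
import Pool.Agent.Lib.MP_9ec2c5_bp.Defs
import Pool.Agent.Lib.MP_9ec2c5_bp.Homog
import Pool.Agent.Lib.MP_9ec2c5_bp.Compare
import Pool.Agent.Lib.MP_9ec2c5_gen.Glob

/-!
A lower bound for the height of the image of a point from algebraic relations.
-/

set_option autoImplicit false

namespace Pool.Agent.Lib.MP_9ec2c5_bp

open MvPolynomial
open Pool.Agent.Lib.MP_9ec2c5_gen (iter)

open Filter Topology Height AdmissibleAbsValues

/-- the height of a point is at most the sum of the heights of the coordinates -/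
theorem flh_sum {K : Type} [Field K] [AdmissibleAbsValues K] {N : ℕ} (x : Fin N → K) :
    logHeight (Fin.cons 1 x : Fin (N + 1) → K) ≤ ∑ i, logHeight ![x i, 1] := by
  classical
  have h1 : ∀ a : Fin N, (![x a, 1] : Fin 2 → K) ≠ 0 := fun a h => by
    have h2 := congrFun h 1
    simp at h2
  rw [← logHeight_fun_prod_eq (ι := fun _ : Fin N => Fin 2) (x := fun a => ![x a, 1]) h1]
  set f : Fin (N + 1) → (Fin N → Fin 2) :=
    Fin.cons (fun _ => 1) (fun i => Function.update (fun _ => 1) i 0) with hf
  have h2 : (Fin.cons 1 x : Fin (N + 1) → K) =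
      (fun I : Fin N → Fin 2 => ∏ a, (![x a, 1] : Fin 2 → K) (I a)) ∘ f := by
    funext j
    refine Fin.cases ?_ (fun i => ?_) j
    · simp [hf]
    · simp only [Fin.cons_succ, Function.comp_apply, hf]
      rw [Finset.prod_eq_single i]
      · simp
      · intro b _ hb
        simp [Function.update_of_ne hb]
      · simp
  rw [h2]
  exact logHeight_comp_le _ _

/-- the size of a root at a place, archimedean case -/
theorem flh_arch {K : Type} [Field K] (v : AbsoluteValue K ℝ) (r : ℕ) (c : Fin (r + 1) → K) (z : K)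
    (hc : c (Fin.last r) ≠ 0) (h : ∑ j, c j * z ^ (j : ℕ) = 0) :
    v (c (Fin.last r)) * max (v z) 1 ≤ (r + 1) * nrm v c := by
  have hle : ∀ j, v (c j) ≤ nrm v c := fun j =>
    le_ciSup (f := fun j => v (c j)) (Finite.bddAbove_range _) j
  have hn : 0 ≤ nrm v c := (v.nonneg _).trans (hle 0)
  rcases le_or_gt (v z) 1 with hz | hz
  · rw [max_eq_right hz, mul_one]
    have h1 := hle (Fin.last r)
    have h2 : 0 ≤ (r : ℝ) * nrm v c := by positivity
    linarith
  · rw [max_eq_left hz.le]
    have hz0 : 0 < v z := zero_lt_one.trans hz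
    cases r with
    | zero =>
      exfalso
      apply hc
      simpa using h
    | succ r =>
      rw [Fin.sum_univ_castSucc] at h
      have h1 : c (Fin.last (r + 1)) * z ^ (r + 1) =
          -∑ j : Fin (r + 1), c (Fin.castSucc j) * z ^ (j : ℕ) := by
        have h2 : ((Fin.last (r + 1) : Fin (r + 1 + 1)) : ℕ) = r + 1 := rfl
        rw [h2] at h
        exact eq_neg_of_add_eq_zero_right h
      have h3 : v (c (Fin.last (r + 1))) * v z ^ (r + 1) ≤ (r + 1) * nrm v c * v z ^ r := by
        rw [← map_pow, ← map_mul, h1, v.map_neg]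
        refine (v.sum_le _ _).trans ?_
        calc ∑ j : Fin (r + 1), v (c (Fin.castSucc j) * z ^ (j : ℕ))
            ≤ ∑ _j : Fin (r + 1), nrm v c * v z ^ r := by
              refine Finset.sum_le_sum fun j _ => ?_
              rw [map_mul, map_pow]
              exact mul_le_mul (hle _) (pow_le_pow_right₀ hz.le (by have := j.2; omega))
                (by positivity) hn
          _ = _ := by
              rw [Finset.sum_const, Finset.card_univ, Fintype.card_fin, nsmul_eq_mul]
              push_cast
              ring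
      have h4 : 0 < v z ^ r := by positivity
      have h5 : v (c (Fin.last (r + 1))) * v z * v z ^ r ≤ ((r + 1) * nrm v c) * v z ^ r := by
        rw [pow_succ] at h3
        linarith
      have h6 := le_of_mul_le_mul_right h5 h4
      push_cast
      linarith

/-- the size of a root at a place, nonarchimedean case -/
theorem flh_nonarch {K : Type} [Field K] (v : AbsoluteValue K ℝ) (hv : IsNonarchimedean v) (r : ℕ)
    (c : Fin (r + 1) → K) (z : K) (hc : c (Fin.last r) ≠ 0) (h : ∑ j, c j * z ^ (j : ℕ) = 0) :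
    v (c (Fin.last r)) * max (v z) 1 ≤ nrm v c := by
  have hle : ∀ j, v (c j) ≤ nrm v c := fun j =>
    le_ciSup (f := fun j => v (c j)) (Finite.bddAbove_range _) j
  have hn : 0 ≤ nrm v c := (v.nonneg _).trans (hle 0)
  rcases le_or_gt (v z) 1 with hz | hz
  · rw [max_eq_right hz, mul_one]
    exact hle (Fin.last r)
  · rw [max_eq_left hz.le]
    have hz0 : 0 < v z := zero_lt_one.trans hz
    cases r with
    | zero =>
      exfalso
      apply hc
      simpa using h
    | succ r =>
      rw [Fin.sum_univ_castSucc] at h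
      have h1 : c (Fin.last (r + 1)) * z ^ (r + 1) =
          -∑ j : Fin (r + 1), c (Fin.castSucc j) * z ^ (j : ℕ) := by
        have h2 : ((Fin.last (r + 1) : Fin (r + 1 + 1)) : ℕ) = r + 1 := rfl
        rw [h2] at h
        exact eq_neg_of_add_eq_zero_right h
      have h3 : v (c (Fin.last (r + 1))) * v z ^ (r + 1) ≤ nrm v c * v z ^ r := by
        rw [← map_pow, ← map_mul, h1, v.map_neg]
        refine (hv.apply_sum_le_sup Finset.univ_nonempty).trans ?_
        refine Finset.sup'_le _ _ fun j _ => ?_
        rw [map_mul, map_pow]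
        exact mul_le_mul (hle _) (pow_le_pow_right₀ hz.le (by have := j.2; omega))
          (by positivity) hn
      have h4 : 0 < v z ^ r := by positivity
      have h5 : v (c (Fin.last (r + 1))) * v z * v z ^ r ≤ nrm v c * v z ^ r := by
        rw [pow_succ] at h3
        linarith
      exact le_of_mul_le_mul_right h5 h4

theorem flh_nrm_smul {K : Type} [Field K] (v : AbsoluteValue K ℝ) (c z : K) :
    nrm v (c • (![z, 1] : Fin 2 → K)) = v c * max (v z) 1 := by
  unfold nrm
  apply le_antisymm
  · refine ciSup_le fun i => ?_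
    rw [Pi.smul_apply, smul_eq_mul, map_mul]
    refine mul_le_mul_of_nonneg_left ?_ (v.nonneg _)
    fin_cases i
    · exact le_max_left _ _
    · have h1 : v ((![z, 1] : Fin 2 → K) 1) = 1 := by simp
      exact h1.le.trans (le_max_right _ _)
  · have hle : ∀ j, v ((c • (![z, 1] : Fin 2 → K)) j) ≤
        ⨆ i, v ((c • (![z, 1] : Fin 2 → K)) i) := fun j =>
      le_ciSup (f := fun i => v ((c • (![z, 1] : Fin 2 → K)) i)) (Finite.bddAbove_range _) j
    rw [mul_max_of_nonneg _ _ (v.nonneg _)]
    refine max_le ?_ ?_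
    · have := hle 0
      simpa using this
    · have := hle 1
      simpa using this

/-- the height of a root -/
theorem flh_root {K : Type} [Field K] [AdmissibleAbsValues K] (r : ℕ) :
    ∃ C1 : ℝ, 0 ≤ C1 ∧ ∀ (c : Fin (r + 1) → K) (z : K), c (Fin.last r) ≠ 0 →
      ∑ j, c j * z ^ (j : ℕ) = 0 → logHeight ![z, 1] ≤ C1 + logHeight c := by
  obtain ⟨C1, hC1, h1⟩ := compare (K := K) ∅ Set.finite_empty (fun _ => (r : ℝ) + 1) (fun _ => by
    have : (0 : ℝ) ≤ r := Nat.cast_nonneg _
    linarith)
  refine ⟨C1, hC1, fun c z hc h => ?_⟩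
  have h2 : c ≠ 0 := fun h3 => hc (congrFun h3 _)
  have h3 : c (Fin.last r) • (![z, 1] : Fin 2 → K) ≠ 0 := fun h4 => by
    have h5 := congrFun h4 1
    simp at h5
    exact hc h5
  have h4 := h1 (Fin 2) (Fin (r + 1)) (c (Fin.last r) • ![z, 1]) c h3 h2
    (fun v _ => by
      rw [flh_nrm_smul]
      exact flh_arch v r c z hc h)
    (fun v hv => absurd hv (Set.notMem_empty _))
    (fun v _ => by
      rw [flh_nrm_smul]
      exact flh_nonarch v.val (isNonarchimedean v.val v.property) r c z hc h)
  rwa [logHeight_smul_eq_logHeight _ hc] at h4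

theorem fl_height {K : Type} [Field K] [NumberField K] {N : ℕ}
    (F : Fin N → MvPolynomial (Fin N) K) (q : Ideal (MvPolynomial (Fin N) K)) (r : Fin N → ℕ)
    (a : Fin N → ℕ → MvPolynomial (Fin N) K)
    (hrel : ∀ i, ∑ j ∈ Finset.range (r i + 1), bind₁ F (a i j) * X i ^ j ∈ q) :
    ∃ c C : ℝ, 0 < c ∧ ∀ x : Fin N → K, (∀ p ∈ q, eval x p = 0) →
      (∀ i, eval (fun l => eval x (F l)) (a i (r i)) ≠ 0) →
      c * logHeight (Fin.cons 1 x : Fin (N + 1) → K) - C ≤
        logHeight (Fin.cons 1 (fun l => eval x (F l)) : Fin (N + 1) → K) := by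
  classical
  have hroot := fun i : Fin N => flh_root (K := K) (r i)
  choose C1 hC1 h1 using hroot
  -- the degrees
  let e : Fin N → ℕ := fun i => (Finset.range (r i + 1)).sup fun j => (a i j).totalDegree
  have he : ∀ i (j : Fin (r i + 1)), (a i j).totalDegree ≤ e i := fun i j =>
    Finset.le_sup (f := fun j => (a i j).totalDegree) (Finset.mem_range.2 j.2)
  have hev := fun i : Fin N => logHeight_eval_le' (K := K) (N := e i)
    (p := fun j : Fin (r i + 1) => hz (e i) (a i j)) (fun j => hz_hom (e i) (a i j) (he i j))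
  choose C2 h2 using hev
  set D : ℝ := ∑ i, (e i : ℝ) with hD
  have hD0 : 0 ≤ D := Finset.sum_nonneg fun i _ => Nat.cast_nonneg _
  refine ⟨1 / (D + 1), (∑ i, (C1 i + C2 i)) / (D + 1), by positivity, fun x hx hne => ?_⟩
  set y : Fin N → K := fun l => eval x (F l) with hy
  have key : ∀ i, logHeight ![x i, 1] ≤
      (C1 i + C2 i) + e i * logHeight (Fin.cons 1 y : Fin (N + 1) → K) := by
    intro i
    have h3 := hx _ (hrel i)
    rw [map_sum, Finset.sum_range] at h3
    have h4 : ∑ j : Fin (r i + 1), eval y (a i j) * x i ^ (j : ℕ) = 0 := by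
      rw [← h3]
      refine Finset.sum_congr rfl fun j _ => ?_
      rw [map_mul, map_pow, eval_X]
      congr 1
      rw [← MvPolynomial.coe_aeval_eq_eval, ← MvPolynomial.coe_aeval_eq_eval]
      change aeval y (a i j) = aeval x (bind₁ F (a i j))
      rw [aeval_bind₁]
      rfl
    have h5 := h1 i (fun j : Fin (r i + 1) => eval y (a i j)) (x i) (hne i) h4
    have h6 := h2 i (Fin.cons 1 y)
    have h7 : (fun j : Fin (r i + 1) => eval (Fin.cons 1 y : Fin (N + 1) → K) (hz (e i) (a i j)))
        = fun j : Fin (r i + 1) => eval y (a i j) := by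
      funext j
      exact hz_eval _ _ _
    rw [h7] at h6
    linarith
  have h3 : logHeight (Fin.cons 1 x : Fin (N + 1) → K) ≤
      (∑ i, (C1 i + C2 i)) + D * logHeight (Fin.cons 1 y : Fin (N + 1) → K) := by
    refine (flh_sum x).trans ?_
    refine (Finset.sum_le_sum fun i _ => key i).trans ?_
    rw [Finset.sum_add_distrib, hD, Finset.sum_mul]
  have h4 : 0 ≤ logHeight (Fin.cons 1 y : Fin (N + 1) → K) := logHeight_nonneg _
  have hD1 : 0 < D + 1 := by linarith
  rw [one_div, inv_mul_eq_div, ← sub_div, div_le_iff₀ hD1]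
  nlinarith

end Pool.Agent.Lib.MP_9ec2c5_bp
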