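import Mathlib
import Pool.Agent.Lib.MP_9ec2c5_bp.Defs
import Pool.Agent.Lib.MP_9ec2c5_bp.Homog

/-!
Local estimates.
-/

set_option autoImplicit false

namespace Pool.Agent.Lib.MP_9ec2c5_bp

open MvPolynomial
open Pool.Agent.Lib.MP_9ec2c5_gen (iter)

variable {K : Type} [Field K] {N : ℕ}

namespace LocalEstAux

theorem v_sum_le (v : AbsoluteValue K ℝ) {ι : Type} (s : Finset ι) (f : ι → K) :
    v (∑ i ∈ s, f i) ≤ ∑ i ∈ s, v (f i) :=
  v.sum_le s f

theorem le_nrm (v : AbsoluteValue K ℝ) (x : Fin (N + 1) → K) (i : Fin (N + 1)) :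
    v (x i) ≤ nrm v x := le_ciSup (f := fun i => v (x i)) (Set.finite_range _).bddAbove i

theorem nrm_nonneg (v : AbsoluteValue K ℝ) (x : Fin (N + 1) → K) : 0 ≤ nrm v x :=
  (v.nonneg (x 0)).trans (le_nrm v x 0)

theorem exists_nrm (v : AbsoluteValue K ℝ) (x : Fin (N + 1) → K) : ∃ i, v (x i) = nrm v x :=
  exists_eq_ciSup_of_finite (f := fun i => v (x i))

/-- Polynomials are bounded on the polydisc. -/
theorem bounded (v : AbsoluteValue K ℝ) (p : MvPolynomial (Fin (N + 1)) K) :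
    ∃ C : ℝ, 0 ≤ C ∧ ∀ x : Fin (N + 1) → K, (∀ i, v (x i) ≤ 1) → v (eval x p) ≤ C := by
  refine ⟨∑ s ∈ p.support, v (coeff s p), Finset.sum_nonneg fun s _ => v.nonneg _,
    fun x hx => ?_⟩
  rw [eval_eq]
  refine (v_sum_le v _ _).trans (Finset.sum_le_sum fun s _ => ?_)
  rw [map_mul, map_prod]
  refine mul_le_of_le_one_right (v.nonneg _) ?_
  refine Finset.prod_le_one (fun i _ => v.nonneg _) fun i _ => ?_
  rw [map_pow]
  exact pow_le_one₀ (v.nonneg _) (hx i)

end LocalEstAux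

open LocalEstAux in
/-- elements of the power of an ideal on the unit polydisc -/
theorem local_pow (v : AbsoluteValue K ℝ) (h : Fin (N + 1) → MvPolynomial (Fin (N + 1)) K)
    (k : ℕ) (f : MvPolynomial (Fin (N + 1)) K) (hf : f ∈ Ideal.span (Set.range h) ^ k) :
    ∃ C : ℝ, 0 ≤ C ∧ ∀ x : Fin (N + 1) → K, (∀ i, v (x i) ≤ 1) →
      v (eval x f) ≤ C * nrm v (fun i => eval x (h i)) ^ k := by
  induction k generalizing f with
  | zero =>
    obtain ⟨C, hC, h1⟩ := bounded v f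
    refine ⟨C, hC, fun x hx => ?_⟩
    rw [pow_zero, mul_one]
    exact h1 x hx
  | succ k ih =>
    rw [pow_succ] at hf
    refine Submodule.mul_induction_on hf ?_ ?_
    · intro a ha b hb
      obtain ⟨C1, hC1, h1⟩ := ih a ha
      obtain ⟨c, hc⟩ := (Ideal.mem_span_range_iff_exists_fun).1 hb
      choose C2 hC2 h2 using fun i => bounded v (c i)
      refine ⟨C1 * ∑ i, C2 i, mul_nonneg hC1 (Finset.sum_nonneg fun i _ => hC2 i), fun x hx => ?_⟩
      have hn := nrm_nonneg v (fun i => eval x (h i))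
      have h3 : v (eval x b) ≤ (∑ i, C2 i) * nrm v (fun i => eval x (h i)) := by
        rw [← hc, map_sum, Finset.sum_mul]
        refine (v_sum_le v _ _).trans (Finset.sum_le_sum fun i _ => ?_)
        rw [map_mul, map_mul]
        exact mul_le_mul (h2 i x hx) (le_nrm v (fun i => eval x (h i)) i) (v.nonneg _) (hC2 i)
      rw [map_mul, map_mul]
      calc v (eval x a) * v (eval x b) ≤ (C1 * nrm v (fun i => eval x (h i)) ^ k) *
            ((∑ i, C2 i) * nrm v (fun i => eval x (h i))) :=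
          mul_le_mul (h1 x hx) h3 (v.nonneg _) (mul_nonneg hC1 (pow_nonneg hn k))
        _ = C1 * (∑ i, C2 i) * nrm v (fun i => eval x (h i)) ^ (k + 1) := by ring
    · rintro a b ⟨C1, hC1, h1⟩ ⟨C2, hC2, h2⟩
      refine ⟨C1 + C2, add_nonneg hC1 hC2, fun x hx => ?_⟩
      rw [map_add, add_mul]
      exact (v.add_le _ _).trans (add_le_add (h1 x hx) (h2 x hx))

open LocalEstAux in
/-- the local estimate for the auxiliary form away from a point -/
theorem local_est (v : AbsoluteValue K ℝ) (δ : ℕ)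
    (h : Fin (N + 1) → MvPolynomial (Fin (N + 1)) K) (hh : ∀ i, (h i).IsHomogeneous δ) (k D : ℕ)
    (hD : D ≤ k * δ) (R : MvPolynomial (Fin (N + 1)) K) (hR : R.IsHomogeneous D) (e E : ℕ)
    (g : MvPolynomial (Fin (N + 1)) K) (hg : g.IsHomogeneous e)
    (hgR : g ^ E * R ∈ Ideal.span (Set.range h) ^ k) (ε : ℝ) (hε : 0 < ε) :
    ∃ C : ℝ, 0 ≤ C ∧ ∀ x : Fin (N + 1) → K, x ≠ 0 → ε * nrm v x ^ e ≤ v (eval x g) →
      v (eval x R) * nrm v x ^ (k * δ - D) ≤ C * nrm v (fun i => eval x (h i)) ^ k := by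
  obtain ⟨C, hC, h1⟩ := local_pow v h k _ hgR
  refine ⟨C / ε ^ E, by positivity, fun x hx hgx => ?_⟩
  obtain ⟨i, hi⟩ := exists_nrm v x
  have hM : 0 < nrm v x := by
    obtain ⟨j, hj⟩ := Function.ne_iff.1 hx
    exact (v.pos hj).trans_le (le_nrm v x j)
  have hxi : x i ≠ 0 := by
    intro h0
    rw [← hi, h0, map_zero] at hM
    exact lt_irrefl _ hM
  have hev : ∀ (p : MvPolynomial (Fin (N + 1)) K) (a : ℕ), p.IsHomogeneous a →
      v (eval ((x i)⁻¹ • x) p) = v (eval x p) / nrm v x ^ a := by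
    intro p a hp
    have h2 := aeval_smul_hom (Ω := K) p a hp (x i)⁻¹ x
    rw [aeval_eq_eval, aeval_eq_eval] at h2
    change eval ((x i)⁻¹ • x) p = (x i)⁻¹ ^ a * eval x p at h2
    rw [h2, map_mul, map_pow, map_inv₀, hi, inv_pow, div_eq_mul_inv, mul_comm]
  have h2 := h1 ((x i)⁻¹ • x) (by
    intro j
    rw [Pi.smul_apply, smul_eq_mul, map_mul, map_inv₀, hi, inv_mul_le_iff₀ hM, mul_one]
    exact le_nrm v x j)
  have hn : nrm v (fun j => eval ((x i)⁻¹ • x) (h j)) =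
      nrm v (fun j => eval x (h j)) / nrm v x ^ δ := by
    unfold nrm
    rw [div_eq_mul_inv, Real.iSup_mul_of_nonneg (by positivity)]
    refine congrArg _ (funext fun j => ?_)
    rw [hev (h j) δ (hh j), div_eq_mul_inv]
    rfl
  rw [hn, map_mul, map_mul, map_pow, map_pow, hev g e hg, hev R D hR,
    div_pow (nrm v fun j => eval x (h j))] at h2
  have h3 : ε ≤ v (eval x g) / nrm v x ^ e := (le_div_iff₀ (by positivity)).2 hgx
  have h4 : ε ^ E * (v (eval x R) / nrm v x ^ D) ≤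
      C * (nrm v (fun j => eval x (h j)) ^ k / (nrm v x ^ δ) ^ k) :=
    (mul_le_mul_of_nonneg_right (pow_le_pow_left₀ hε.le h3 E) (by positivity)).trans h2
  have h5 : nrm v x ^ (k * δ) = nrm v x ^ D * nrm v x ^ (k * δ - D) := by
    rw [← pow_add, Nat.add_sub_cancel' hD]
  have h6 : (nrm v x ^ δ) ^ k = nrm v x ^ (k * δ) := by
    rw [← pow_mul, mul_comm]
  rw [h6] at h4
  have h7 := mul_le_mul_of_nonneg_right h4 (pow_nonneg hM.le (k * δ))
  rw [mul_assoc C, div_mul_cancel₀ _ (by positivity), h5] at h7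
  have h8 : ε ^ E * (v (eval x R) / nrm v x ^ D) * (nrm v x ^ D * nrm v x ^ (k * δ - D)) =
      ε ^ E * (v (eval x R) * nrm v x ^ (k * δ - D)) := by
    field_simp
  rw [h8] at h7
  rw [div_mul_eq_mul_div, le_div_iff₀ (by positivity), mul_comm]
  exact h7

end Pool.Agent.Lib.MP_9ec2c5_bp
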