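import Mathlib
import Pool.Agent.Lib.MP_9ec2c5_bp.Defs
import Pool.Agent.Lib.MP_9ec2c5_bp.Homog
import Pool.Agent.Lib.MP_9ec2c5_bp.ConjL

/-!
The points at infinity which are eventually mapped to indeterminacy.
-/

set_option autoImplicit false

namespace Pool.Agent.Lib.MP_9ec2c5_bp

open MvPolynomial
open Pool.Agent.Lib.MP_9ec2c5_gen (iter)

variable {K : Type} [Field K] {N : ℕ}

private theorem seq_lead_hom (d : ℕ) (F : Fin N → MvPolynomial (Fin N) K) (n : ℕ) (i : Fin N) :
    (iter (lead d F) n i).IsHomogeneous (d ^ n) :=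
  iter_hom _ d (fun _ => homogeneousComponent_isHomogeneous _ _) n i

private theorem seq_zer (d : ℕ) (hd : 1 ≤ d) (F : Fin N → MvPolynomial (Fin N) K)
    (hF : ∀ i, (F i).totalDegree ≤ d) (n : ℕ)
    (p : Projectivization (AlgebraicClosure K) (Fin N → AlgebraicClosure K)) :
    (Fin.cons 0 p.rep : Fin (N + 1) → AlgebraicClosure K) ∈
      Zer (AlgebraicClosure K) (iter (hmap d F) n) ↔ p ∈ BadPoints d F n := by
  constructor
  · intro h i
    rw [← hmap_infty d hd F hF n]
    exact h i.succ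
  · intro h j
    refine Fin.cases ?_ (fun i => ?_) j
    · rw [hmap_zero_coord, Fin.cons_zero, zero_pow (by positivity)]
    · rw [hmap_infty d hd F hF n]
      exact h i

theorem finLines_hmap (d : ℕ) (hd : 1 ≤ d) (F : Fin N → MvPolynomial (Fin N) K)
    (hF : ∀ i, (F i).totalDegree ≤ d) (n : ℕ) (h : (BadPoints d F n).Finite) :
    FinLines (Zer (AlgebraicClosure K) (iter (hmap d F) n)) := by
  classical
  refine ⟨insert 0 ((fun p => (Fin.cons 0 p.rep : Fin (N + 1) → AlgebraicClosure K)) ''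
    BadPoints d F n), (h.image _).insert 0, fun x hx => ?_⟩
  have hx0 : x 0 = 0 := by
    have := hx 0
    rw [hmap_zero_coord] at this
    exact pow_eq_zero_iff (by positivity) |>.1 this
  set v : Fin N → AlgebraicClosure K := Fin.tail x with hv
  have hxv : x = Fin.cons 0 v := by
    rw [hv, ← hx0, Fin.cons_self_tail]
  by_cases hv0 : v = 0
  · refine ⟨0, Set.mem_insert _ _, 0, ?_⟩
    rw [hxv, hv0, smul_zero]
    funext j
    refine Fin.cases ?_ (fun i => ?_) j <;> simp
  · obtain ⟨a, ha⟩ := Projectivization.exists_smul_eq_mk_rep (AlgebraicClosure K) v hv0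
    refine ⟨_, Set.mem_insert_of_mem _ ⟨Projectivization.mk (AlgebraicClosure K) v hv0, ?_, rfl⟩,
      ((a⁻¹ : (AlgebraicClosure K)ˣ) : AlgebraicClosure K), ?_⟩
    · intro i
      rw [← ha]
      have h1 := aeval_smul_hom _ _ (seq_lead_hom d F n i) (a : AlgebraicClosure K) v
      have h2 : (a • v : Fin N → AlgebraicClosure K) = (a : AlgebraicClosure K) • v := rfl
      rw [h2, h1, ← hmap_infty d hd F hF n, ← hxv, hx i.succ, mul_zero]
    · rw [hxv]
      funext j
      refine Fin.cases ?_ (fun i => ?_) j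
      · simp
      · simp only [Fin.cons_succ, Pi.smul_apply, smul_eq_mul]
        rw [← ha]
        have h2 : (a • v : Fin N → AlgebraicClosure K) i = (a : AlgebraicClosure K) * v i := rfl
        rw [h2, ← mul_assoc, Units.inv_mul, one_mul]

theorem badPoints_mono (d : ℕ) (hd : 1 ≤ d) (F : Fin N → MvPolynomial (Fin N) K) (n n' : ℕ)
    (h : n ≤ n') : BadPoints d F n ⊆ BadPoints d F n' := by
  intro p hp i
  obtain ⟨a, rfl⟩ := Nat.exists_eq_add_of_le' h
  rw [aeval_iter_add]
  have h0 : (fun j => aeval p.rep (iter (lead d F) n j)) = (0 : Fin N → AlgebraicClosure K) :=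
    funext hp
  rw [h0]
  have h1 := aeval_smul_hom _ _ (seq_lead_hom d F a i) (0 : AlgebraicClosure K)
    (0 : Fin N → AlgebraicClosure K)
  rwa [smul_zero, zero_pow (by positivity), zero_mul] at h1

theorem two_le (d : ℕ) (F : Fin N → MvPolynomial (Fin N) K)
    (hinf : (⋃ n, BadPoints d F n).Infinite) : 2 ≤ N := by
  by_contra hN
  apply hinf
  apply Set.Subsingleton.finite
  intro p _ q _
  obtain ⟨i, hi⟩ := Function.ne_iff.1 q.rep_nonzero
  simp only [Pi.zero_apply] at hi
  rw [← p.mk_rep, ← q.mk_rep, Projectivization.mk_eq_mk_iff']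
  refine ⟨p.rep i / q.rep i, ?_⟩
  funext j
  have hij : j = i := Fin.ext (by omega)
  rw [hij, Pi.smul_apply, smul_eq_mul]
  field_simp

/-- infinitely many pairwise non-conjugate points at infinity eventually mapped to
indeterminacy -/
theorem exists_seq (d : ℕ) (hd : 1 ≤ d) (F : Fin N → MvPolynomial (Fin N) K)
    (hF : ∀ i, (F i).totalDegree ≤ d) (hfin : ∀ n, (BadPoints d F n).Finite)
    (hinf : (⋃ n, BadPoints d F n).Infinite) :
    ∃ (q : ℕ → Fin (N + 1) → AlgebraicClosure K) (j : ℕ → ℕ), (∀ i, q i ≠ 0) ∧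
      (∀ i, q i 0 = 0) ∧ (∀ i, q i ∈ Zer (AlgebraicClosure K) (iter (hmap d F) (j i))) ∧
      ∀ i i', i ≠ i' → ∀ p, Below K (q i) p → Below K (q i') p → p = 0 := by
  classical
  have hstep : ∀ n, ∃ m, n < m ∧ ∃ p, p ∈ BadPoints d F m ∧ p ∉ BadPoints d F n := by
    intro n
    obtain ⟨p, hp, hpn⟩ := hinf.exists_notMem_finite (hfin n)
    obtain ⟨m, hm⟩ := Set.mem_iUnion.1 hp
    refine ⟨max m (n + 1), by omega, p, badPoints_mono d hd F _ _ (le_max_left _ _) hm, hpn⟩
  choose m hm p hp1 hp2 using hstep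
  set n : ℕ → ℕ := fun i => m^[i] 0 with hn
  have hns : ∀ i, n (i + 1) = m (n i) := fun i => Function.iterate_succ_apply' m i 0
  have hmono : StrictMono n := strictMono_nat_of_lt_succ fun i => by
    rw [hns]
    exact hm _
  have hq0 : ∀ i, (Fin.cons 0 (p (n i)).rep : Fin (N + 1) → AlgebraicClosure K) ≠ 0 := by
    intro i h
    apply (p (n i)).rep_nonzero
    funext j
    have := congrFun h j.succ
    simpa using this
  -- the ordered case
  have key : ∀ i i', i < i' → ∀ x : Fin (N + 1) → AlgebraicClosure K,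
      Below K (Fin.cons 0 (p (n i)).rep : Fin (N + 1) → AlgebraicClosure K) x →
      Below K (Fin.cons 0 (p (n i')).rep : Fin (N + 1) → AlgebraicClosure K) x → x = 0 := by
    intro i i' hii x h1 h2
    by_contra hx
    have h3 := below_symm _ _ (hq0 i') hx h2
    have h4 : p (n i) ∈ BadPoints d F (n i') := by
      have := hp1 (n i)
      rw [← hns] at this
      exact badPoints_mono d hd F _ _ (hmono.monotone (by omega)) this
    have h5 := (seq_zer d hd F hF (n i') (p (n i))).2 h4
    apply hp2 (n i')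
    rw [← seq_zer d hd F hF (n i')]
    intro j
    have hhom := iter_hom (hmap d F) d (hmap_hom d F hF) (n i') j
    exact h3 _ _ hhom (h1 _ _ hhom (h5 j))
  refine ⟨fun i => Fin.cons 0 (p (n i)).rep, fun i => n (i + 1), hq0, fun i => Fin.cons_zero _ _,
    fun i => ?_, fun i i' hii x h1 h2 => ?_⟩
  · rw [seq_zer d hd F hF]
    have := hp1 (n i)
    rwa [← hns] at this
  · rcases lt_or_gt_of_ne hii with h | h
    · exact key i i' h x h1 h2
    · exact key i' i h x h2 h1

end Pool.Agent.Lib.MP_9ec2c5_bp
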