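import Mathlib
import Pool.Agent.Lib.MP_9ec2c5_bp.Defs
import Pool.Agent.Lib.MP_9ec2c5_bp.Homog
import Pool.Agent.Lib.MP_9ec2c5_gen.NullBase

/-!
Separation of points at a place.
-/

set_option autoImplicit false

namespace Pool.Agent.Lib.MP_9ec2c5_bp

open MvPolynomial
open Pool.Agent.Lib.MP_9ec2c5_gen (iter)

variable {K : Type} [Field K] {Ω : Type} [Field Ω] [Algebra K Ω]

/-- a polynomial is bounded on the unit polydisc -/
private lemma Sep_bd {N : ℕ} (v : AbsoluteValue K ℝ) (p : MvPolynomial (Fin (N + 1)) K)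
    (x : Fin (N + 1) → K) (hx : ∀ j, v (x j) ≤ 1) :
    v (eval x p) ≤ ∑ s ∈ p.support, v (coeff s p) := by
  rw [eval_eq]
  refine (v.sum_le _ _).trans (Finset.sum_le_sum fun s _ => ?_)
  rw [map_mul]
  have h1 : v (∏ i ∈ s.support, x i ^ s i) ≤ 1 := by
    rw [map_prod]
    refine Finset.prod_le_one (fun i _ => v.nonneg _) fun i _ => ?_
    rw [map_pow]
    exact pow_le_one₀ (v.nonneg _) (hx i)
  calc v (coeff s p) * v (∏ i ∈ s.support, x i ^ s i) ≤ v (coeff s p) * 1 :=
        mul_le_mul_of_nonneg_left h1 (v.nonneg _)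
    _ = v (coeff s p) := mul_one _

private lemma Sep_rel [IsAlgClosed Ω] {N r : ℕ} (q : Fin r → Fin (N + 1) → Ω)
    (hsep : ∀ i i', i ≠ i' → ∀ p, Below K (q i) p → Below K (q i') p → p = 0)
    (i i' : Fin r) (l : Fin (N + 1)) :
    ∃ (A : ℕ) (T : Finset (MvPolynomial (Fin (N + 1)) K))
      (c : MvPolynomial (Fin (N + 1)) K → MvPolynomial (Fin (N + 1)) K),
      (∀ g ∈ T, (∃ e, g.IsHomogeneous e) ∧ (aeval (q i) g = 0 ∨ aeval (q i') g = 0)) ∧
      (i ≠ i' → ∑ g ∈ T, c g * g = X l ^ A) := by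
  classical
  by_cases hii : i = i'
  · exact ⟨0, ∅, fun _ => 0, fun g hg => absurd hg (Finset.notMem_empty g),
      fun h => absurd hii h⟩
  · set S : Set (MvPolynomial (Fin (N + 1)) K) :=
      {f | (∃ e, f.IsHomogeneous e) ∧ (aeval (q i) f = 0 ∨ aeval (q i') f = 0)} with hS
    obtain ⟨A, hA⟩ := Pool.Agent.Lib.MP_9ec2c5_gen.NullBase.null (Ω := Ω) S (X l) (by
      intro t ht
      have h1 : Below K (q i) t := fun e f hf hf0 => ht f ⟨⟨e, hf⟩, Or.inl hf0⟩
      have h2 : Below K (q i') t := fun e f hf hf0 => ht f ⟨⟨e, hf⟩, Or.inr hf0⟩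
      rw [hsep i i' hii t h1 h2, aeval_X]
      rfl)
    obtain ⟨T, hTS, hT⟩ := Submodule.mem_span_finite_of_mem_span hA
    obtain ⟨c, -, hc⟩ := Submodule.mem_span_finset.mp hT
    exact ⟨A, T, c, fun g hg => hTS hg, fun _ => by simpa [smul_eq_mul] using hc⟩

/-- Finitely many pairwise non-conjugate points: at each place every point of projective space is
far from all of them but one. -/
theorem sep [IsAlgClosed Ω] {N r : ℕ} (q : Fin r → Fin (N + 1) → Ω)
    (hsep : ∀ i i', i ≠ i' → ∀ p, Below K (q i) p → Below K (q i') p → p = 0) :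
    ∃ 𝒢 : Fin r → Finset (ℕ × MvPolynomial (Fin (N + 1)) K),
      (∀ i, ∀ g ∈ 𝒢 i, g.2.IsHomogeneous g.1 ∧ aeval (q i) g.2 = 0) ∧
      ∀ v : AbsoluteValue K ℝ, ∃ ε : ℝ, 0 < ε ∧ ∀ i i', i ≠ i' → ∀ x : Fin (N + 1) → K, x ≠ 0 →
        (∃ g ∈ 𝒢 i, ε * nrm v x ^ g.1 ≤ v (eval x g.2)) ∨
        (∃ g ∈ 𝒢 i', ε * nrm v x ^ g.1 ≤ v (eval x g.2)) := by
  classical
  choose A T c hT hc using Sep_rel q hsep
  set U : Finset (MvPolynomial (Fin (N + 1)) K) :=
    Finset.univ.biUnion fun i => Finset.univ.biUnion fun i' => Finset.univ.biUnion fun l =>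
      T i i' l with hU
  have hmemU : ∀ i i' l, ∀ g ∈ T i i' l, g ∈ U := by
    intro i i' l g hg
    rw [hU]
    simp only [Finset.mem_biUnion, Finset.mem_univ, true_and]
    exact ⟨i, i', l, hg⟩
  have hhom : ∀ g ∈ U, g.IsHomogeneous g.totalDegree := by
    intro g hg
    rw [hU] at hg
    simp only [Finset.mem_biUnion, Finset.mem_univ, true_and] at hg
    obtain ⟨i, i', l, hg⟩ := hg
    obtain ⟨e, he⟩ := (hT i i' l g hg).1
    by_cases h0 : g = 0
    · rw [h0]
      exact isHomogeneous_zero _ _ _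
    · rw [he.totalDegree h0]
      exact he
  refine ⟨fun i => (U.filter fun g => aeval (q i) g = 0).image fun g => (g.totalDegree, g),
    ?_, ?_⟩
  · intro i g hg
    rw [Finset.mem_image] at hg
    obtain ⟨f, hf, rfl⟩ := hg
    rw [Finset.mem_filter] at hf
    exact ⟨hhom f hf.1, hf.2⟩
  · intro v
    set B : Fin r → Fin r → Fin (N + 1) → ℝ := fun i i' l =>
      ∑ g ∈ T i i' l, ∑ s ∈ (c i i' l g).support, v (coeff s (c i i' l g)) with hB
    have hB0 : ∀ i i' l, 0 ≤ B i i' l := fun i i' l =>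
      Finset.sum_nonneg fun g _ => Finset.sum_nonneg fun s _ => v.nonneg _
    set Bt : ℝ := ∑ i, ∑ i', ∑ l, B i i' l with hBt
    have hBle : ∀ i i' l, B i i' l ≤ Bt := by
      intro i i' l
      calc B i i' l ≤ ∑ l, B i i' l :=
            Finset.single_le_sum (f := fun l => B i i' l) (fun l _ => hB0 i i' l)
              (Finset.mem_univ l)
        _ ≤ ∑ i', ∑ l, B i i' l :=
            Finset.single_le_sum (f := fun i' => ∑ l, B i i' l)
              (fun i' _ => Finset.sum_nonneg fun l _ => hB0 i i' l) (Finset.mem_univ i')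
        _ ≤ Bt :=
            Finset.single_le_sum (f := fun i => ∑ i', ∑ l, B i i' l)
              (fun i _ => Finset.sum_nonneg fun i' _ => Finset.sum_nonneg fun l _ => hB0 i i' l)
              (Finset.mem_univ i)
    have hBt0 : 0 ≤ Bt := Finset.sum_nonneg fun i _ => Finset.sum_nonneg fun i' _ =>
      Finset.sum_nonneg fun l _ => hB0 i i' l
    refine ⟨1 / (1 + Bt), by positivity, fun i i' hii x hx => ?_⟩
    -- the largest coordinate
    obtain ⟨l, hl⟩ := exists_eq_ciSup_of_finite (f := fun j => v (x j))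
    have hnx : nrm v x = v (x l) := hl.symm
    have hle : ∀ j, v (x j) ≤ v (x l) := by
      intro j
      rw [← hnx]
      exact le_ciSup (f := fun j => v (x j)) (Set.finite_range _).bddAbove j
    have hxl : x l ≠ 0 := by
      intro h0
      apply hx
      funext j
      have h1 := hle j
      rw [h0, map_zero] at h1
      exact (v.nonpos_iff).mp h1
    have hvl : 0 < v (x l) := v.pos hxl
    set y : Fin (N + 1) → K := (x l)⁻¹ • x with hy
    have hy1 : ∀ j, v (y j) ≤ 1 := by
      intro j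
      rw [hy, Pi.smul_apply, smul_eq_mul, map_mul, map_inv₀, inv_mul_le_iff₀ hvl, mul_one]
      exact hle j
    have hyl : y l = 1 := by
      rw [hy, Pi.smul_apply, smul_eq_mul, inv_mul_cancel₀ hxl]
    have hex : ∃ g ∈ T i i' l, 1 / (1 + Bt) ≤ v (eval y g) := by
      by_contra hcon
      push Not at hcon
      have h1 : (1 : ℝ) ≤ ∑ g ∈ T i i' l, v (eval y (c i i' l g)) * v (eval y g) := by
        have h2 := congrArg (fun p => v (eval y p)) (hc i i' l hii)
        simp only [map_pow, eval_X, hyl, map_one, one_pow] at h2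
        rw [← h2, map_sum]
        refine (v.sum_le _ _).trans (Finset.sum_le_sum fun g _ => ?_)
        rw [map_mul, map_mul]
      have h3 : ∑ g ∈ T i i' l, v (eval y (c i i' l g)) * v (eval y g)
          ≤ B i i' l * (1 / (1 + Bt)) := by
        rw [hB]
        simp only
        rw [Finset.sum_mul]
        refine Finset.sum_le_sum fun g hg => ?_
        exact mul_le_mul (Sep_bd v _ y hy1) (hcon g hg).le (v.nonneg _)
          (Finset.sum_nonneg fun s _ => v.nonneg _)
      have h4 : B i i' l * (1 / (1 + Bt)) < 1 := by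
        rw [mul_one_div, div_lt_one (by positivity)]
        linarith [hBle i i' l]
      linarith
    obtain ⟨g, hg, hge⟩ := hex
    have hgU := hmemU i i' l g hg
    have hgx : eval x g = x l ^ g.totalDegree * eval y g := by
      have h1 := aeval_smul_hom (Ω := K) g g.totalDegree (hhom g hgU) (x l) y
      have h2 : x l • y = x := by
        rw [hy, smul_smul, mul_inv_cancel₀ hxl, one_smul]
      rw [h2] at h1
      simpa [aeval_eq_eval] using h1
    have hfin : 1 / (1 + Bt) * nrm v x ^ g.totalDegree ≤ v (eval x g) := by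
      rw [hgx, hnx, map_mul, map_pow, mul_comm]
      exact mul_le_mul_of_nonneg_left hge (pow_nonneg (v.nonneg _) _)
    rcases (hT i i' l g hg).2 with h | h
    · exact Or.inl ⟨(g.totalDegree, g), Finset.mem_image.mpr
        ⟨g, Finset.mem_filter.mpr ⟨hgU, h⟩, rfl⟩, hfin⟩
    · exact Or.inr ⟨(g.totalDegree, g), Finset.mem_image.mpr
        ⟨g, Finset.mem_filter.mpr ⟨hgU, h⟩, rfl⟩, hfin⟩

end Pool.Agent.Lib.MP_9ec2c5_bp
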