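import Mathlib
import Pool.Agent.Lib.MP_9ec2c5_bp.Defs

/-!
Growth of sequences from inequalities valid at most times.
-/

set_option autoImplicit false

namespace Pool.Agent.Lib.MP_9ec2c5_bp

open MvPolynomial
open Pool.Agent.Lib.MP_9ec2c5_gen (iter)

open Filter Topology

/-- The number of elements of `Bad` between `n1` and `n - L`. -/
private noncomputable def growB (Bad : Set ℕ) (n1 L n : ℕ) : ℕ := by
  classical
  exact ((Finset.Ico n1 (n + 1 - L)).filter (· ∈ Bad)).card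

private theorem growB_mono (Bad : Set ℕ) (n1 L : ℕ) {m n : ℕ} (h : m ≤ n) :
    growB Bad n1 L m ≤ growB Bad n1 L n := by
  classical
  unfold growB
  refine Finset.card_le_card (Finset.filter_subset_filter _ ?_)
  exact Finset.Ico_subset_Ico_right (by omega)

private theorem growB_succ (Bad : Set ℕ) (n1 L : ℕ) {m : ℕ} (hL : 1 ≤ L) (h : n1 ≤ m)
    (hm : m ∈ Bad) : growB Bad n1 L (m + L) = growB Bad n1 L (m + L - 1) + 1 := by
  classical
  unfold growB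
  have e1 : m + L + 1 - L = m + 1 := by omega
  have e2 : m + L - 1 + 1 - L = m := by omega
  rw [e1, e2, ← Nat.succ_eq_add_one, Nat.Ico_succ_right_eq_insert_Ico h, Finset.filter_insert,
    if_pos hm, Finset.card_insert_of_notMem]
  simp

private theorem grow_main (a : ℕ → ℝ) (ρ η : ℝ) (hρ : 1 ≤ ρ) (hη : 0 < η) (hη1 : η ≤ 1)
    (L n1 : ℕ) (hL : 1 ≤ L) (Bad : Set ℕ) (h1 : 1 ≤ a n1)
    (hstep : ∀ n, n1 ≤ n → η * a n ≤ a (n + 1))
    (hgood : ∀ n, n1 ≤ n → n ∉ Bad → ρ ^ L * a n ≤ a (n + L)) :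
    ∀ k, (η / ρ) ^ L * ρ ^ k * (η / ρ) ^ growB Bad n1 L (n1 + k) ≤ a (n1 + k) := by
  have hρ0 : 0 < ρ := by linarith
  have hq0 : 0 < η / ρ := div_pos hη hρ0
  have hq1 : η / ρ ≤ 1 := (div_le_one hρ0).2 (by linarith)
  have hfl : ∀ k, η ^ k ≤ a (n1 + k) := by
    intro k
    induction k with
    | zero => simpa using h1
    | succ k ih =>
      calc η ^ (k + 1) = η * η ^ k := by ring
        _ ≤ η * a (n1 + k) := mul_le_mul_of_nonneg_left ih hη.le
        _ ≤ a (n1 + k + 1) := hstep _ (by omega)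
  intro k
  induction k using Nat.strong_induction_on with
  | _ k ih =>
  rcases Nat.lt_or_ge k L with hk | hk
  · have e1 : (η / ρ) ^ growB Bad n1 L (n1 + k) ≤ 1 := pow_le_one₀ hq0.le hq1
    have e2 : ρ ^ k ≤ ρ ^ L := pow_le_pow_right₀ hρ hk.le
    have e3 : (η / ρ) ^ L * ρ ^ L = η ^ L := by
      rw [← mul_pow, div_mul_cancel₀ _ hρ0.ne']
    calc (η / ρ) ^ L * ρ ^ k * (η / ρ) ^ growB Bad n1 L (n1 + k)
        ≤ (η / ρ) ^ L * ρ ^ L * 1 := by
          refine mul_le_mul (mul_le_mul_of_nonneg_left e2 (by positivity)) e1 (by positivity)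
            (by positivity)
      _ = η ^ L := by rw [mul_one, e3]
      _ ≤ η ^ k := pow_le_pow_of_le_one hη.le hη1 hk.le
      _ ≤ a (n1 + k) := hfl k
  · obtain ⟨m, rfl⟩ : ∃ m, k = m + L := ⟨k - L, by omega⟩
    by_cases hm : n1 + m ∈ Bad
    · have h2 := ih (m + L - 1) (by omega)
      have e1 : n1 + (m + L - 1) = n1 + m + L - 1 := by omega
      have e2 : n1 + (m + L) = n1 + m + L := by omega
      rw [e1] at h2
      rw [e2, growB_succ Bad n1 L hL (by omega) hm]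
      have h3 := hstep (n1 + m + L - 1) (by omega)
      have e3 : n1 + m + L - 1 + 1 = n1 + m + L := by omega
      rw [e3] at h3
      refine le_trans (le_of_eq ?_) ((mul_le_mul_of_nonneg_left h2 hη.le).trans h3)
      have e4 : ρ ^ (m + L) = ρ ^ (m + L - 1) * ρ := by
        rw [← pow_succ]
        congr 1
        omega
      rw [e4, pow_succ (η / ρ) (growB Bad n1 L (n1 + m + L - 1))]
      field_simp
    · have h2 := ih m (by omega)
      have h3 := hgood (n1 + m) (by omega) hm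
      have e2 : n1 + (m + L) = n1 + m + L := by omega
      rw [e2]
      have e5 : (η / ρ) ^ growB Bad n1 L (n1 + m + L) ≤ (η / ρ) ^ growB Bad n1 L (n1 + m) :=
        pow_le_pow_of_le_one hq0.le hq1 (growB_mono _ _ _ (by omega))
      calc (η / ρ) ^ L * ρ ^ (m + L) * (η / ρ) ^ growB Bad n1 L (n1 + m + L)
          ≤ (η / ρ) ^ L * ρ ^ (m + L) * (η / ρ) ^ growB Bad n1 L (n1 + m) :=
            mul_le_mul_of_nonneg_left e5 (by positivity)
        _ = ρ ^ L * ((η / ρ) ^ L * ρ ^ m * (η / ρ) ^ growB Bad n1 L (n1 + m)) := by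
            rw [pow_add ρ m L]
            ring
        _ ≤ ρ ^ L * a (n1 + m) := mul_le_mul_of_nonneg_left h2 (by positivity)
        _ ≤ a (n1 + m + L) := h3

theorem grow (a : ℕ → ℝ) (d : ℕ) (hd : 2 ≤ d) (ha : Tendsto a atTop atTop) (c0 C0 : ℝ) (n0 : ℕ)
    (hc0 : 0 < c0) (hc1 : c0 ≤ 1) (hFL : ∀ n, n0 ≤ n → c0 * a n - C0 ≤ a (n + 1)) (c : ℝ)
    (hc : 0 < c) (L0 : ℕ)
    (hgood : ∀ L, L0 ≤ L → ∃ (C : ℝ) (Bad : Set ℕ),
      (∀ δ : ℝ, 0 < δ → ∃ W0 : ℕ, ∀ W, W0 ≤ W → ∀ s : ℕ, ∀ A : Finset ℕ,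
        A ⊆ Finset.Ico s (s + W) → (∀ n ∈ A, n ∈ Bad) → (A.card : ℝ) ≤ δ * W) ∧
      ∀ n, n ∉ Bad → c * (d : ℝ) ^ L * a n - C ≤ a (n + L)) (ρ : ℝ) (hρ : 0 < ρ)
    (hρd : ρ < d) : ∀ᶠ n in atTop, ρ ^ n ≤ a n := by
  classical
  have hd1 : (1 : ℝ) < d := by exact_mod_cast (by omega : 1 < d)
  obtain ⟨ρ', h1, h2⟩ := exists_between (max_lt hρd hd1)
  have hρρ' : ρ < ρ' := (le_max_left _ _).trans_lt h1
  have hρ1 : 1 < ρ' := (le_max_right _ _).trans_lt h1
  have hρ0 : 0 < ρ' := by linarith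
  -- the length
  have hL : ∃ L, max L0 1 ≤ L ∧ ρ' ^ L ≤ c / 2 * (d : ℝ) ^ L := by
    have h3 : Tendsto (fun L : ℕ => ((d : ℝ) / ρ') ^ L) atTop atTop :=
      tendsto_pow_atTop_atTop_of_one_lt ((one_lt_div hρ0).2 h2)
    obtain ⟨L, hL1, hL2⟩ := ((h3.eventually_ge_atTop (2 / c)).and
      (eventually_ge_atTop (max L0 1))).exists
    refine ⟨L, hL2, ?_⟩
    rw [div_pow, div_le_div_iff₀ hc (by positivity)] at hL1
    linarith
  obtain ⟨L, hLL, hL2⟩ := hL
  have hL1 : 1 ≤ L := (le_max_right _ _).trans hLL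
  obtain ⟨C, Bad, hBad, hg⟩ := hgood L ((le_max_left _ _).trans hLL)
  obtain ⟨n1, hn1⟩ : ∃ n1, ∀ n, n1 ≤ n → n0 ≤ n ∧ 1 ≤ a n ∧ C0 ≤ c0 / 2 * a n ∧
      C ≤ c / 2 * (d : ℝ) ^ L * a n := by
    have hd0 : (0 : ℝ) < c / 2 * (d : ℝ) ^ L := by positivity
    have h4 := ha.eventually_ge_atTop 1
    have h5 := (ha.const_mul_atTop (by positivity : 0 < c0 / 2)).eventually_ge_atTop C0
    have h6 := (ha.const_mul_atTop hd0).eventually_ge_atTop C
    obtain ⟨n1, hn1⟩ := eventually_atTop.1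
      ((eventually_ge_atTop n0).and (h4.and (h5.and h6)))
    exact ⟨n1, hn1⟩
  have hmain := grow_main a ρ' (c0 / 2) hρ1.le (by positivity) (by linarith) L n1 hL1 Bad
    (hn1 n1 le_rfl).2.1 (fun n hn => by
      have h3 := hFL n (hn1 n hn).1
      have h4 := (hn1 n hn).2.2.1
      linarith) (fun n hn hnb => by
      have h3 := hg n hnb
      have h4 := (hn1 n hn).2.2.2
      have h5 : ρ' ^ L * a n ≤ c / 2 * (d : ℝ) ^ L * a n :=
        mul_le_mul_of_nonneg_right hL2 (by linarith [(hn1 n hn).2.1])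
      linarith)
  set q : ℝ := c0 / 2 / ρ' with hq
  have hq0 : 0 < q := by positivity
  have hq1 : q ≤ 1 := (div_le_one hρ0).2 (by linarith)
  -- the density
  obtain ⟨δ, hδ, hβ⟩ : ∃ δ : ℝ, 0 < δ ∧ ρ < ρ' * q ^ δ := by
    have h3 : Tendsto (fun δ : ℝ => ρ' * q ^ δ) (𝓝 0) (𝓝 (ρ' * q ^ (0 : ℝ))) :=
      ((Real.continuous_const_rpow hq0.ne').tendsto 0).const_mul ρ'
    rw [Real.rpow_zero, mul_one] at h3
    have h4 := (h3.eventually (lt_mem_nhds hρρ')).filter_mono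
      (nhdsWithin_le_nhds (s := Set.Ioi (0 : ℝ)))
    obtain ⟨δ, h5, h6⟩ := (h4.and self_mem_nhdsWithin).exists
    exact ⟨δ, h6, h5⟩
  obtain ⟨W0, hW0⟩ := hBad δ hδ
  set β : ℝ := ρ' * q ^ δ with hβd
  have hβ0 : 0 < β := by positivity
  have hlow : ∀ k, W0 ≤ k → q ^ L * β ^ k ≤ a (n1 + k) := by
    intro k hk
    refine le_trans ?_ (hmain k)
    have h3 : (growB Bad n1 L (n1 + k) : ℝ) ≤ δ * k := by
      refine hW0 k hk n1 _ ?_ ?_
      · refine (Finset.filter_subset _ _).trans (Finset.Ico_subset_Ico_right (by omega))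
      · intro n hn
        exact (Finset.mem_filter.1 hn).2
    have h4 : (q ^ δ) ^ k ≤ q ^ growB Bad n1 L (n1 + k) := by
      rw [← Real.rpow_natCast (q ^ δ) k, ← Real.rpow_mul hq0.le, ← Real.rpow_natCast q]
      exact Real.rpow_le_rpow_of_exponent_ge hq0 hq1 h3
    rw [hβd, mul_pow, ← mul_assoc]
    exact mul_le_mul_of_nonneg_left h4 (by positivity)
  have h7 : Tendsto (fun k : ℕ => (β / ρ) ^ k) atTop atTop :=
    tendsto_pow_atTop_atTop_of_one_lt ((one_lt_div hρ).2 hβ)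
  have h8 : ∀ᶠ k in atTop, ρ ^ (n1 + k) ≤ a (n1 + k) := by
    filter_upwards [h7.eventually_ge_atTop (ρ ^ n1 / q ^ L), eventually_ge_atTop W0]
      with k hk1 hk2
    refine le_trans ?_ (hlow k hk2)
    rw [div_pow β ρ k, div_le_div_iff₀ (by positivity) (by positivity)] at hk1
    rw [pow_add]
    linarith
  obtain ⟨k0, hk0⟩ := eventually_atTop.1 h8
  filter_upwards [eventually_ge_atTop (n1 + k0)] with n hn
  have h9 := hk0 (n - n1) (by omega)
  rwa [Nat.add_sub_cancel' (by omega)] at h9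

theorem root_tendsto (a : ℕ → ℝ) (d : ℕ) (hd : 2 ≤ d) (M : ℝ) (hup : ∀ n, a n ≤ M * (d : ℝ) ^ n)
    (hlow : ∀ ρ : ℝ, 0 < ρ → ρ < d → ∀ᶠ n in atTop, ρ ^ n ≤ a n) (D : ℝ) (hD : 0 < D) :
    Tendsto (fun n : ℕ => (1 + a n / D) ^ (1 / (n : ℝ))) atTop (𝓝 (d : ℝ)) := by
  have hd1 : (1 : ℝ) < d := by exact_mod_cast (by omega : 1 < d)
  have hd0 : (0 : ℝ) < d := by linarith
  have hroot : ∀ c : ℝ, 0 < c → Tendsto (fun n : ℕ => c ^ (1 / (n : ℝ))) atTop (𝓝 1) := by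
    intro c hc
    have h := (tendsto_const_nhds (x := c)).rpow (tendsto_one_div_atTop_nhds_zero_nat (𝕜 := ℝ))
      (Or.inl hc.ne')
    rwa [Real.rpow_zero] at h
  have hpow : ∀ (x c : ℝ), 0 < x → 0 < c → ∀ n : ℕ, 1 ≤ n →
      (c * x ^ n) ^ (1 / (n : ℝ)) = c ^ (1 / (n : ℝ)) * x := by
    intro x c hx hc n hn
    have hn0 : (n : ℝ) ≠ 0 := by exact_mod_cast (by omega : n ≠ 0)
    rw [Real.mul_rpow hc.le (by positivity), ← Real.rpow_natCast x n, ← Real.rpow_mul hx.le,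
      mul_one_div_cancel hn0, Real.rpow_one]
  refine tendsto_order.2 ⟨fun b hb => ?_, fun b hb => ?_⟩
  · obtain ⟨ρ, h1, h2⟩ := exists_between (max_lt hb hd0)
    have hρ0 : 0 < ρ := (le_max_right _ _).trans_lt h1
    have hbρ : b < ρ := (le_max_left _ _).trans_lt h1
    have h3 : Tendsto (fun n : ℕ => (D⁻¹) ^ (1 / (n : ℝ)) * ρ) atTop (𝓝 (1 * ρ)) :=
      (hroot _ (inv_pos.2 hD)).mul_const ρ
    rw [one_mul] at h3
    filter_upwards [h3.eventually (lt_mem_nhds hbρ), hlow ρ hρ0 h2, eventually_ge_atTop 1]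
      with n hn1 hn2 hn3
    refine hn1.trans_le ?_
    rw [← hpow ρ D⁻¹ hρ0 (inv_pos.2 hD) n hn3]
    refine Real.rpow_le_rpow (by positivity) ?_ (by positivity)
    rw [inv_mul_eq_div]
    have h4 : ρ ^ n / D ≤ a n / D := div_le_div_of_nonneg_right hn2 hD.le
    linarith
  · have hM : (0 : ℝ) < 1 + |M| / D := by positivity
    have h3 : Tendsto (fun n : ℕ => (1 + |M| / D) ^ (1 / (n : ℝ)) * d) atTop (𝓝 (1 * d)) :=
      (hroot _ hM).mul_const (d : ℝ)
    rw [one_mul] at h3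
    filter_upwards [h3.eventually (gt_mem_nhds hb), hlow 1 one_pos hd1, eventually_ge_atTop 1]
      with n hn1 hn2 hn3
    refine lt_of_le_of_lt ?_ hn1
    rw [← hpow d _ hd0 hM n hn3]
    have ha0 : 0 ≤ a n := by
      have : (1 : ℝ) ^ n ≤ a n := hn2
      rw [one_pow] at this
      linarith
    refine Real.rpow_le_rpow (by positivity) ?_ (by positivity)
    have h4 : a n / D ≤ |M| * (d : ℝ) ^ n / D := by
      refine div_le_div_of_nonneg_right ((hup n).trans ?_) hD.le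
      exact mul_le_mul_of_nonneg_right (le_abs_self M) (by positivity)
    have h5 : (1 : ℝ) ≤ (d : ℝ) ^ n := one_le_pow₀ hd1.le
    calc 1 + a n / D ≤ (d : ℝ) ^ n + |M| * (d : ℝ) ^ n / D := by linarith
      _ = (1 + |M| / D) * (d : ℝ) ^ n := by ring

end Pool.Agent.Lib.MP_9ec2c5_bp
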